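import Pool.Agent.Lib.MP_305fdd_al.CZ.E1.Stm

/-!
# MP_305fdd_al (`C_m * Z`), section E1: assembly
-/

set_option autoImplicit false

namespace Pool.Agent.CZE1

open Pool.Agent.F2Ch Pool.Agent.F2 Pool.Agent.F2W Pool.Agent.F2D Pool.Agent.F2RF Pool.Agent.F2PF
open Pool.Agent.CZ Polynomial

theorem asm (hpt : S_pt) (hcst : S_cst) (hcI : S_cI) (hcII : S_cII) : I_E1 := by
  intro p m _ k K G _ _ _ _ _ _ C hno s1 s2 y M hcl hsg
  obtain ⟨w, W, hP, κ, κ', _, _, _, _, r', x', ac', φb, φ', i, y', hR⟩ :=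
    hpt p m k K G C s1 s2 y M hcl hsg
  apply hno
  by_cases h : ∀ l, 0 ≤ w (C.T l) → C.ν l = 1
  · exact hcI p m k K G C w W hP
      (hcst p m k K G C w hP.inz hP.neg κ κ' r' x' ac' φb φ' i y' hR) h
  · push Not at h
    obtain ⟨l1, h1, h2⟩ := h
    exact hcII p m k K G C w W hP l1 h1 h2

end Pool.Agent.CZE1
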