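import Pool.Agent.Lib.MP_305fdd_al.CZ.E1.Stm

/-!
# MP_305fdd_al, `C_m * Z`, piece [CZ1 Iw]
-/

set_option autoImplicit false

namespace Pool.Agent.CZE1

open Pool.Agent.F2Ch Pool.Agent.F2 Pool.Agent.F2W Pool.Agent.F2D Pool.Agent.F2RF Pool.Agent.F2PF
open Pool.Agent.CZ Polynomial

private lemma Iw_rr_ne {k : Type} [Field k] (z : kˣ) (n : ℤ) (hn : n ≠ 0) (a : k) :
    rr z n ≠ algebraMap k (Ls k) a := by
  intro h
  have h1 : (rr z n).coeff n = (algebraMap k (Ls k) a).coeff n := by rw [h]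
  unfold rr at h1
  rw [AddMonoidAlgebra.coe_algebraMap] at h1
  have h2 : (-n : ℤ) ≠ n := by omega
  have h3 : (0 : ℤ) ≠ n := fun e => hn e.symm
  rw [AddMonoidAlgebra.coeff_add, Finsupp.add_apply, AddMonoidAlgebra.coeff_single,
    AddMonoidAlgebra.coeff_single, Finsupp.single_eq_same, Finsupp.single_eq_of_ne (Ne.symm h2),
    add_zero, Function.comp_apply, AddMonoidAlgebra.coeff_single,
    Finsupp.single_eq_of_ne (Ne.symm h3)] at h1
  exact (z⁻¹).ne_zero h1

private lemma Iw_tr {k : Type} [Field k] [IsAlgClosed k] (z : kˣ) (n : ℤ) (hn : n ≠ 0) :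
    Transcendental k (rr z n) := by
  intro h
  have hi : IsIntegral k (rr z n) := h.isIntegral
  have h1 : (minpoly k (rr z n)).degree = 1 :=
    IsAlgClosed.degree_eq_one_of_irreducible k (minpoly.irreducible hi)
  obtain ⟨a, ha⟩ := minpoly.mem_range_of_degree_eq_one k (rr z n) h1
  exact Iw_rr_ne z n hn a ha.symm

private lemma Iw_ev {k B : Type} [Field k] [CommRing B] [Algebra k B] (f h : B)
    (Q : MvPolynomial (Fin 2) k) :
    Polynomial.eval₂ ((MvPolynomial.aeval (fun _ : Fin 1 => h) : MvPolynomial (Fin 1) k →ₐ[k] B) :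
      MvPolynomial (Fin 1) k →+* B) f (MvPolynomial.finSuccEquiv k 1 Q) =
      MvPolynomial.aeval ![f, h] Q := by
  have key : (Polynomial.eval₂RingHom ((MvPolynomial.aeval (fun _ : Fin 1 => h) :
      MvPolynomial (Fin 1) k →ₐ[k] B) : MvPolynomial (Fin 1) k →+* B) f).comp
        (MvPolynomial.finSuccEquiv k 1).toAlgHom.toRingHom =
      ((MvPolynomial.aeval ![f, h] : MvPolynomial (Fin 2) k →ₐ[k] B) :
        MvPolynomial (Fin 2) k →+* B) := by
    refine MvPolynomial.ringHom_ext (fun c => ?_) (fun i => ?_)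
    · simp [MvPolynomial.finSuccEquiv_apply]
    · refine Fin.cases ?_ (fun j => ?_) i
      · simp [MvPolynomial.finSuccEquiv_X_zero]
      · have hj : j = 0 := Subsingleton.elim _ _
        subst hj
        change Polynomial.eval₂ _ f (MvPolynomial.finSuccEquiv k 1 (MvPolynomial.X (Fin.succ 0))) =
          MvPolynomial.aeval ![f, h] (MvPolynomial.X (Fin.succ 0))
        rw [MvPolynomial.finSuccEquiv_X_succ, Polynomial.eval₂_C, MvPolynomial.aeval_X]
        exact MvPolynomial.aeval_X _ _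
  exact congrArg (fun g => g Q) key

theorem p_Iw (htr1 : S_tr1) : S_Iw := by
  intro p m _ k K G _ _ _ _ _ _ C w hw hne hneg l1 hl1 hν f hf hGe
  by_contra hf0
  have hff : f ≠ 0 := fun e => hf0 (by rw [e]; rfl)
  -- the relation
  obtain ⟨P, hP0, hP⟩ := htr1 p m k K G C w hw hne (f : K) (C.T l1) hGe (Or.inr hl1)
  have hPB : MvPolynomial.aeval ![f, C.TB l1] P = (0 : C.B) := by
    have h1 : ((MvPolynomial.aeval ![f, C.TB l1] P : C.B) : K) =
        MvPolynomial.aeval ![(f : K), C.T l1] P := by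
      have h2 := MvPolynomial.aeval_algebraMap_apply (B := K) (![f, C.TB l1]) P
      have h3 : (algebraMap C.B K ∘ ![f, C.TB l1]) = ![(f : K), C.T l1] := by
        ext i
        fin_cases i <;> rfl
      exact (Eq.symm (by rw [← h3]; exact h2))
    rcases hP with hP | hP
    · exact Subtype.ext (by rw [h1, hP]; rfl)
    · by_contra hcon
      have h2 : ((MvPolynomial.aeval ![f, C.TB l1] P : C.B) : K) ≠ 0 :=
        fun e => hcon (Subtype.ext e)
      have h3 := hneg _ (MvPolynomial.aeval ![f, C.TB l1] P : C.B).2 h2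
      rw [h1] at h3
      exact absurd hP (not_lt.mpr h3)
  -- the algebra structure
  let α : MvPolynomial (Fin 1) k →ₐ[k] C.B := MvPolynomial.aeval (fun _ => C.TB l1)
  let : Algebra (MvPolynomial (Fin 1) k) C.B := (α : MvPolynomial (Fin 1) k →+* C.B).toAlgebra
  have halg : IsAlgebraic (MvPolynomial (Fin 1) k) f := by
    refine ⟨MvPolynomial.finSuccEquiv k 1 P, fun e => hP0 ?_, ?_⟩
    · exact (MvPolynomial.finSuccEquiv k 1).injective (by rw [e, map_zero])
    · rw [Polynomial.aeval_def]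
      have := Iw_ev f (C.TB l1) P
      rw [hPB] at this
      exact this
  obtain ⟨q, hq0, hq⟩ := halg.exists_nonzero_coeff_and_aeval_eq_zero
    (mem_nonZeroDivisors_of_ne_zero hff)
  rw [Polynomial.aeval_def] at hq
  have h1 : C.res (α (q.coeff 0)) = 0 := by
    have h2 := congrArg C.res hq
    rw [map_zero] at h2
    have h3 := Polynomial.hom_eval₂ q (α : MvPolynomial (Fin 1) k →+* C.B)
      (C.res : C.B →+* Ls k) f
    have h4 : (C.res : C.B →+* Ls k) f = 0 := hf
    rw [h4, Polynomial.eval₂_at_zero] at h3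
    rw [← h2]
    exact h3.symm
  have h5 : (MvPolynomial.aeval (fun _ : Fin 1 => rr (C.χ l1) (Multiplicative.toAdd (C.ν l1))) :
      MvPolynomial (Fin 1) k →ₐ[k] Ls k) (q.coeff 0) = 0 := by
    rw [← h1]
    have h6 : (MvPolynomial.aeval (fun _ : Fin 1 =>
        rr (C.χ l1) (Multiplicative.toAdd (C.ν l1))) : MvPolynomial (Fin 1) k →ₐ[k] Ls k) =
        C.res.comp α := by
      refine MvPolynomial.algHom_ext fun i => ?_
      rw [MvPolynomial.aeval_X, AlgHom.comp_apply]
      have h7 : α (MvPolynomial.X i) = C.TB l1 := MvPolynomial.aeval_X _ _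
      rw [h7]
      exact (C.res_T l1).symm
    rw [h6]
    rfl
  have hn : Multiplicative.toAdd (C.ν l1) ≠ 0 := fun e => hν (toAdd_eq_zero.mp e)
  have h8 : AlgebraicIndependent k
      (fun _ : Fin 1 => rr (C.χ l1) (Multiplicative.toAdd (C.ν l1))) :=
    algebraicIndependent_unique_type_iff.mpr (Iw_tr _ _ hn)
  exact hq0 (h8 (by rw [h5, map_zero]))

end Pool.Agent.CZE1
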