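import Pool.Agent.Lib.MP_305fdd_al.CZ.E1.Stm

/-!
# MP_305fdd_al (`C_m * Z`), E1: piece [CZ1 bk]
-/

set_option autoImplicit false

namespace Pool.Agent.CZE1

open Pool.Agent.F2Ch Pool.Agent.F2 Pool.Agent.F2W Pool.Agent.F2D Pool.Agent.F2RF Pool.Agent.F2PF
open Pool.Agent.CZ Polynomial

private theorem bk_coeff {k : Type} [Field k] (z : kˣ) (n j : ℤ) :
    (rr z n).coeff j = (if n = j then ((z⁻¹ : kˣ) : k) else 0) + (if -n = j then (z : k) else 0) := by
  unfold rr
  rw [AddMonoidAlgebra.coeff_add, Finsupp.add_apply, AddMonoidAlgebra.coeff_single,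
    AddMonoidAlgebra.coeff_single, Finsupp.single_apply, Finsupp.single_apply]

private theorem bk_alg {k : Type} [Field k] (a : k) (j : ℤ) :
    (algebraMap k (Ls k) a).coeff j = if 0 = j then a else 0 := by
  have h : algebraMap k (Ls k) a = AddMonoidAlgebra.single 0 a := rfl
  rw [h, AddMonoidAlgebra.coeff_single, Finsupp.single_apply]

theorem p_bk (hrk : I_rk) : S_bk := by
  intro p m _ k K G _ _ _ _ _ _ C w W hP
  have h1 : ∀ f ∈ C.B, Ge W 0 f → ∃ a : k, f = algebraMap k K a := by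
    intro f hf hW
    by_cases hf0 : f = 0
    · exact ⟨0, by rw [hf0, map_zero]⟩
    have hW0 : W f = 0 := le_antisymm (hP.negW f hf hf0) (hW.resolve_left hf0)
    obtain ⟨a, -, ha⟩ := hrk p m k K G C (ℤ ×ₗ ℤ) W hP.inzW hP.two f hf0 hW0
    refine ⟨a, ?_⟩
    have hmem : f - algebraMap k K a ∈ C.B := C.B.sub_mem hf (C.B.algebraMap_mem a)
    by_contra hne
    have hne' : f - algebraMap k K a ≠ 0 := sub_ne_zero.2 hne
    exact absurd (ha.resolve_left hne') (not_lt.2 (hP.negW _ hmem hne'))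
  have h2 : ∀ (l : G) (a : k), C.T l = algebraMap k K a → C.Ex l := by
    intro l a hl
    have e1 : (⟨C.T l, C.T_mem l⟩ : C.B) = algebraMap k C.B a := Subtype.ext hl
    have e2 : rr (C.χ l) (Multiplicative.toAdd (C.ν l)) = algebraMap k (Ls k) a := by
      rw [← C.res_T, e1, AlgHom.commutes]
    have hn : Multiplicative.toAdd (C.ν l) = 0 := by
      by_contra hn
      have e3 := congrArg (fun f => AddMonoidAlgebra.coeff f (Multiplicative.toAdd (C.ν l))) e2
      simp only [bk_coeff, bk_alg] at e3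
      rw [if_pos trivial, if_neg (by omega), if_neg (by omega), add_zero] at e3
      exact ((C.χ l)⁻¹).ne_zero e3
    have hν : C.ν l = 1 := by
      rw [← ofAdd_toAdd (C.ν l), hn, ofAdd_zero]
    refine ⟨hν, ?_⟩
    have e3 := congrArg (fun f => AddMonoidAlgebra.coeff f 0) e2
    simp only [bk_coeff, bk_alg, hn] at e3
    rw [if_pos trivial, if_pos neg_zero, if_pos trivial] at e3
    rw [hl, ← map_add, ← e3, add_comm]
  refine ⟨h1, h2, ?_⟩
  intro g u u' hu hu' huu hT
  have hu0 : u ≠ 0 := left_ne_zero_of_mul_eq_one huu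
  have hu0' : u' ≠ 0 := right_ne_zero_of_mul_eq_one huu
  have hW1 : W (1 : K) = 0 := by
    have := hP.inzW.isv.mul 1 1 one_ne_zero one_ne_zero
    rw [mul_one] at this
    exact left_eq_add.1 this
  have hsum : W u + W u' = 0 := by
    rw [← hP.inzW.isv.mul u u' hu0 hu0', huu, hW1]
  have ha := hP.negW u hu hu0
  have hb := hP.negW u' hu' hu0'
  have hWu : 0 ≤ W u := by
    rw [eq_neg_of_add_eq_zero_left hsum]
    exact neg_nonneg.2 hb
  have hWu' : 0 ≤ W u' := by
    rw [eq_neg_of_add_eq_zero_right hsum]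
    exact neg_nonneg.2 ha
  obtain ⟨a, haa⟩ := h1 u hu (Or.inr hWu)
  obtain ⟨b, hbb⟩ := h1 u' hu' (Or.inr hWu')
  exact (h2 g (a + b) (by rw [hT, haa, hbb, map_add])).1

end Pool.Agent.CZE1
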