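import Pool.Agent.Lib.MP_305fdd_al.CZ.E1.Stm
import Pool.Agent.Lib.MP_305fdd_al.F2.D.Main

set_option autoImplicit false

/-!
# MP_305fdd_al (`C_m * Z`), E1: piece cI
-/

namespace Pool.Agent.CZE1

open Pool.Agent.F2Ch Pool.Agent.F2 Pool.Agent.F2W Pool.Agent.F2D Pool.Agent.F2RF Pool.Agent.F2PF
open Pool.Agent.CZ Polynomial

private theorem cI_neg {k K Γ : Type} [Field k] [Field K] [Algebra k K] [AddCommGroup Γ]
    [LinearOrder Γ] [IsOrderedAddMonoid Γ] {V : K → Γ} (hV : IsV V) (ht : Triv k V) (x : K) :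
    V (-x) = V x := by
  by_cases hx : x = 0
  · rw [hx, neg_zero]
  · have h1 := ht (-1)
    rw [map_neg, map_one] at h1
    rw [← neg_one_mul, hV.mul _ _ (neg_ne_zero.2 one_ne_zero) hx, h1, zero_add]

private theorem cI_eq {k K Γ : Type} [Field k] [Field K] [Algebra k K] [AddCommGroup Γ]
    [LinearOrder Γ] [IsOrderedAddMonoid Γ] {V : K → Γ} (hV : IsV V) (ht : Triv k V) {x : K}
    (hx : x ≠ 0) {a : k} (ha : a ≠ 0) (h : Gt V 0 (x - algebraMap k K a)) : V x = 0 := by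
  have ha' : algebraMap k K a ≠ 0 := fun h0 => ha ((map_eq_zero _).1 h0)
  rcases h with h | h
  · rw [sub_eq_zero.1 h]
    exact ht a
  · have hne : x - algebraMap k K a ≠ 0 := by
      intro h0
      rw [h0, hV.zero] at h
      exact lt_irrefl _ h
    have h1 := hV.add _ _ hne ha' (by rw [sub_add_cancel]; exact hx)
    rw [sub_add_cancel, ht a, min_eq_right h.le] at h1
    have h2 := hV.add _ _ hx (neg_ne_zero.2 hne) (by rw [neg_sub, add_sub_cancel]; exact ha')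
    rw [cI_neg hV ht, neg_sub, add_sub_cancel, ht a] at h2
    rcases min_le_iff.1 h2 with h3 | h3
    · exact le_antisymm h3 h1
    · exact absurd h (not_lt.2 h3)

theorem p_cI (hbk : S_bk) (htc : S_tc) (hdl : S_dl) (htt : S_tt) (hcl : S_cl) (htwo : S_two)
    (htb : S_tb) (hex : S_ex) : S_cI := by
  intro p m _ k K G _ _ _ _ _ _ C w W hP hcst hν
  obtain ⟨hb1, hb2, hb3⟩ := hbk p m k K G C w W hP
  obtain ⟨ht1, ht2, -⟩ := htc p m k K G C
  obtain ⟨g0, hg0⟩ := ht2 w W hP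
  obtain ⟨δ, hcls, hδ⟩ := hdl p m k K G C
  have hdw : Disc w := ⟨1, one_pos, fun f _ => ⟨w f, by simp⟩⟩
  obtain ⟨t, htE, htS⟩ := htt G K ℤ C.T w C.c C.pc C.irr hP.inz.isv hdw ⟨g0, hg0⟩ ht1
  by_cases hcase : ∀ S, t.Edg S → ∀ l ∈ S, δ l = 1
  · exact hcl m G C.c δ C.ν hcls t (fun l hl => hν l ((htE l).1 hl)) hcase
  push Not at hcase
  obtain ⟨S, hS, l0, hl0, hδ0⟩ := hcase
  have hχ0 : C.χ l0 ^ 2 ≠ 1 := fun h => hδ0 ((hδ l0).2 h)
  obtain ⟨g, hg⟩ := htS S hS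
  obtain ⟨ψ, hψ⟩ := hg l0 hl0
  have hw0 : 0 ≤ w (C.T l0) := by
    obtain ⟨a, b, hab, rfl⟩ := hS
    exact (htE l0).1 ⟨a, hl0.1⟩
  have hroot := hψ.root C.pc hP.inz.isv
  have hroot' : Gt w 0 (ψ + ψ⁻¹ - C.T l0) := by
    rw [← neg_sub]
    rcases hroot with h | h
    · exact Or.inl (by rw [h, neg_zero])
    · exact Or.inr (by rw [cI_neg hP.inz.isv hP.inz.triv]; exact h)
  obtain ⟨a, ha, -, haT⟩ := hcst l0 ψ (hν l0 hw0) hw0 hψ.ne hψ.val hroot'
  have hEx0 : C.Ex l0 := hb2 l0 (a + a⁻¹) (by rw [haT, map_add])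
  have htwo0 := htwo p m k K G C l0 hEx0 hχ0
  have hexact : ∀ l, 0 ≤ W (C.T l) → C.Ex l := by
    intro l hl
    obtain ⟨b, hb⟩ := hb1 (C.T l) (C.T_mem l) (Or.inr hl)
    exact hb2 l b hb
  have hm0 : 2 * m ≠ 0 := by
    have := C.two_le
    omega
  haveI : NeZero (2 * m) := ⟨hm0⟩
  have hpos : ∀ f, f ≠ 0 → 0 < w f → 0 < W f := by
    intro f _ hf
    rw [Prod.Lex.lt_iff]
    left
    rw [hP.fst f]
    exact hf
  obtain ⟨t', ht'⟩ := htb G K ℤ (ℤ ×ₗ ℤ) (rootsOfUnity (2 * m) k) C.T w W C.c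
    (C.χ.codRestrict (rootsOfUnity (2 * m) k) fun g => (mem_rootsOfUnity _ _).2 (C.χ_pow g))
    C.pc C.irr hP.inz.isv hP.inzW.isv hdw ⟨g0, hg0⟩ hpos hP.disc C.c_comm C.c_sq ht1
    (by
      intro l ψ hl hψ0 hψv hψT
      obtain ⟨b, hb, hb1, -⟩ := hcst l ψ (hν l hl) hl hψ0 hψv hψT
      refine cI_eq hP.inzW.isv hP.inzW.triv hψ0 hb ?_
      rcases hb1 with h | h
      · exact Or.inl h
      · refine Or.inr (hpos _ ?_ h)
        intro h0
        rw [h0, hP.inz.isv.zero] at h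
        exact lt_irrefl _ h)
    (by
      intro l hl _ hχ
      have h1 : C.χ l = 1 := congrArg Subtype.val hχ
      have h2 := (hexact l hl).2
      rw [h1, inv_one, Units.val_one, map_one] at h2
      exact htwo0 l (by rw [h2]; norm_num))
  exact hex p m k K G C hb3 δ hcls hδ t' fun l hl => hexact l (ht' l hl)

end Pool.Agent.CZE1
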