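import Pool.Agent.Lib.MP_305fdd_al.CZ.E1.Stm

/-!
# MP_305fdd_al, `C_m * Z`, piece [CZ1 cII]
-/

set_option autoImplicit false

namespace Pool.Agent.CZE1

open Pool.Agent.F2Ch Pool.Agent.F2 Pool.Agent.F2W Pool.Agent.F2D Pool.Agent.F2RF Pool.Agent.F2PF
open Pool.Agent.CZ Polynomial

section
variable {K : Type} [Field K] {v : K → ℤ}

private theorem cII_ge_add (hv : IsV v) {x y : K} (hx : Ge v 0 x) (hy : Ge v 0 y) :
    Ge v 0 (x + y) := by
  by_cases h : x + y = 0
  · exact Or.inl h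
  · by_cases hx0 : x = 0
    · rw [hx0, zero_add]; exact hy
    · by_cases hy0 : y = 0
      · rw [hy0, add_zero]; exact hx
      · exact Or.inr (le_trans (le_min (hx.resolve_left hx0) (hy.resolve_left hy0))
          (hv.add x y hx0 hy0 h))

private theorem cII_ge_mul (hv : IsV v) {x y : K} (hx : Ge v 0 x) (hy : Ge v 0 y) :
    Ge v 0 (x * y) := by
  by_cases hx0 : x = 0
  · left; rw [hx0, zero_mul]
  · by_cases hy0 : y = 0
    · left; rw [hy0, mul_zero]
    · right
      rw [hv.mul x y hx0 hy0]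
      exact add_nonneg (hx.resolve_left hx0) (hy.resolve_left hy0)

end

section
variable {p m : ℕ} [Fact p.Prime] {k K G : Type} [Field k] [CharP k p] [IsAlgClosed k]
  [Field K] [Algebra k K] [Group G]

private theorem cII_inv (C : Core p m k K G) (l : G) : C.T l⁻¹ = C.T l := by
  have h1 := C.pc.rel 1 l
  rw [one_mul, one_mul, C.pc.one] at h1
  linear_combination h1

private theorem cII_npow (C : Core p m k K G) {w : K → ℤ} (hv : IsV w) (ht : Triv k w) (l : G)
    (hl : Ge w 0 (C.T l)) (N : ℕ) : Ge w 0 (C.T (l ^ N)) ∧ Ge w 0 (C.T (l ^ (N + 1))) := by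
  have hc : ∀ c : k, Ge w 0 (algebraMap k K c) := fun c => Or.inr (by rw [ht c])
  induction N with
  | zero =>
    refine ⟨?_, by rw [zero_add, pow_one]; exact hl⟩
    rw [pow_zero, C.pc.one]
    have := hc 2
    rwa [map_ofNat] at this
  | succ N ih =>
    refine ⟨ih.2, ?_⟩
    have h1 := C.pc.rel (l ^ (N + 1)) l
    rw [← pow_succ, pow_succ l N, mul_inv_cancel_right, ← pow_succ] at h1
    have h2 : C.T (l ^ (N + 1 + 1)) = C.T (l ^ (N + 1)) * C.T l +
        algebraMap k K (-1) * C.T (l ^ N) := by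
      rw [map_neg, map_one]
      linear_combination h1
    rw [h2]
    exact cII_ge_add hv (cII_ge_mul hv ih.2 hl) (cII_ge_mul hv (hc _) ih.1)

private theorem cII_zpow (C : Core p m k K G) {w : K → ℤ} (hv : IsV w) (ht : Triv k w) (l : G)
    (hl : Ge w 0 (C.T l)) (N : ℤ) : Ge w 0 (C.T (l ^ N)) := by
  cases N with
  | ofNat n => rw [Int.ofNat_eq_natCast, zpow_natCast]; exact (cII_npow C hv ht l hl n).1
  | negSucc n => rw [zpow_negSucc, cII_inv]; exact (cII_npow C hv ht l hl n).2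

/-- two elliptic elements with the same `ν ≠ 1` have the same `χ ^ 2` -/
private theorem cII_sq (hnoS : S_noS) (C : Core p m k K G) (w : K → ℤ)
    (W : K → ℤ ×ₗ ℤ) (hP : Pt C w W) (L L' : G) (hL : Ge w 0 (C.T L)) (hL' : Ge w 0 (C.T L'))
    (l1 : G) (hl1 : 0 ≤ w (C.T l1)) (hν1 : C.ν l1 ≠ 1)
    (hν : C.ν L = C.ν L') (hν0 : C.ν L ≠ 1) : C.χ L ^ 2 = C.χ L' ^ 2 := by
  have hv := hP.inz.isv
  have ht := hP.inz.triv
  have hcon : ∀ c : k, Ge w 0 (algebraMap k K c) := fun c => Or.inr (by rw [ht c])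
  have hn : Multiplicative.toAdd (C.ν L) ≠ 0 := fun e => hν0 (toAdd_eq_zero.mp e)
  by_contra hcon2
  have ha : ((C.χ L : k) ^ 2 - (C.χ L' : k) ^ 2) ≠ 0 := by
    intro h
    apply hcon2
    apply Units.ext
    push_cast
    exact sub_eq_zero.mp h
  obtain ⟨f, hf⟩ : ∃ f : C.B, f = algebraMap k C.B (C.χ L : k) * C.TB L -
    algebraMap k C.B (C.χ L' : k) * C.TB L' := ⟨_, rfl⟩
  have hfw : Ge w 0 (f : K) := by
    have h1 : (f : K) = algebraMap k K (C.χ L : k) * C.T L +
        algebraMap k K (-(C.χ L' : k)) * C.T L' := by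
      rw [hf, map_neg]
      change algebraMap k K _ * C.T L - algebraMap k K _ * C.T L' = _
      ring
    rw [h1]
    exact cII_ge_add hv (cII_ge_mul hv (hcon _) hL) (cII_ge_mul hv (hcon _) hL')
  refine hnoS p m k K G C w W hP l1 hl1 hν1 f (-(Multiplicative.toAdd (C.ν L)))
    ((C.χ L : k) ^ 2 - (C.χ L' : k) ^ 2) hfw (neg_ne_zero.mpr hn) ha ?_
  have h1 : C.res (C.TB L) = rr (C.χ L) (Multiplicative.toAdd (C.ν L)) := C.res_T L
  have h2 : C.res (C.TB L') = rr (C.χ L') (Multiplicative.toAdd (C.ν L)) := by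
    rw [hν]; exact C.res_T L'
  rw [hf, map_sub, map_mul, map_mul, AlgHom.commutes, AlgHom.commutes, h1, h2, rr, rr,
    AddMonoidAlgebra.coe_algebraMap, Function.comp_apply, Function.comp_apply, mul_add, mul_add,
    AddMonoidAlgebra.single_mul_single, AddMonoidAlgebra.single_mul_single,
    AddMonoidAlgebra.single_mul_single, AddMonoidAlgebra.single_mul_single, zero_add, zero_add,
    Algebra.algebraMap_self, RingHom.id_apply, RingHom.id_apply, Units.mul_inv, Units.mul_inv,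
    AddMonoidAlgebra.single_sub, sq, sq]
  abel

end

theorem p_cII (hnoS : S_noS) (htc : S_tc) (hdl : S_dl) (htt : S_tt) (htl : S_tl) : S_cII := by
  intro p m _ k K G _ _ _ _ _ _ C w W hP l1 hl1 hν1
  obtain ⟨δ, hcls, hδ⟩ := hdl p m k K G C
  obtain ⟨t1, t2, -⟩ := htc p m k K G C
  have hdisc : Disc w := ⟨1, Int.one_pos, fun f _ => ⟨w f, by rw [smul_eq_mul, mul_one]⟩⟩
  obtain ⟨t, hell, -⟩ := htt G K ℤ C.T w C.c C.pc C.irr hP.inz.isv hdisc (t2 w W hP) t1
  refine htl m G C.c δ C.ν hcls t ⟨l1, (hell l1).mpr hl1, hν1⟩ ?_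
  intro l l' hl hl' hνl hνl' i j hij
  have hl0 := (hell l).mp hl
  have hl'0 := (hell l').mp hl'
  by_cases hN : C.ν l ^ i = 1
  · -- both exponents vanish
    have hz : ∀ (x : Multiplicative ℤ) (n : ℤ), x ≠ 1 → x ^ n = 1 → n = 0 := by
      intro x n hx h
      have h1 := congrArg Multiplicative.toAdd h
      rw [toAdd_zpow, toAdd_one, smul_eq_mul] at h1
      rcases mul_eq_zero.mp h1 with h2 | h2
      · exact h2
      · exact absurd (toAdd_eq_zero.mp h2) hx
    have hi := hz _ i hνl hN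
    have hj := hz _ j hνl' (by rw [← hij]; exact hN)
    rw [hi, hj, zpow_zero, zpow_zero]
  · have h1 := cII_sq hnoS C w W hP (l ^ i) (l' ^ j)
      (cII_zpow C hP.inz.isv hP.inz.triv l (Or.inr hl0) i)
      (cII_zpow C hP.inz.isv hP.inz.triv l' (Or.inr hl'0) j) l1 hl1 hν1
      (by rw [map_zpow, map_zpow]; exact hij) (by rw [map_zpow]; exact hN)
    have h2 : δ (l ^ i * (l' ^ j)⁻¹) = 1 := by
      rw [hδ, map_mul, map_inv, mul_pow, h1, inv_pow, mul_inv_cancel]
    rw [map_mul, map_inv, mul_inv_eq_one, map_zpow, map_zpow] at h2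
    exact h2

end Pool.Agent.CZE1
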