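import Pool.Agent.Lib.MP_305fdd_al.CZ.E1.Stm

/-!
# MP_305fdd_al (`C_m * Z`), E1: piece cst
-/

set_option autoImplicit false

namespace Pool.Agent.CZE1

open Pool.Agent.F2Ch Pool.Agent.F2 Pool.Agent.F2W Pool.Agent.F2D Pool.Agent.F2RF Pool.Agent.F2PF
open Pool.Agent.CZ Polynomial

private theorem cst_lc_alg {k K κ' : Type} [Field k] [Field K] [Algebra k K] [Field κ']
    [Algebra k κ'] {r' : ℕ} {w : K → ℤ} {x' : Fin r' → K} {ac' : K → κ'} (ht : Triv k w)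
    (hac : IsAC k w x' ac') (b : k) : lc w ac' 0 (algebraMap k K b) = algebraMap k κ' b := by
  unfold lc
  by_cases hb : b = 0
  · rw [if_neg, hb, map_zero]
    rintro ⟨h, -⟩
    exact h (by rw [hb, map_zero])
  · rw [if_pos ⟨fun h => hb ((map_eq_zero _).1 h), ht b⟩, hac.alg]

private theorem cst_iter_add {p : ℕ} {κ' : Type} [Field κ'] {φ' : κ' → κ'} (h : IsPinv p φ')
    (N : ℕ) (a b : κ') : φ'^[N] (a + b) = φ'^[N] a + φ'^[N] b := by
  induction N with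
  | zero => rfl
  | succ N ih => rw [Function.iterate_succ_apply', Function.iterate_succ_apply',
      Function.iterate_succ_apply', ih, h.add]

private theorem cst_iter_one {κ' : Type} [Field κ'] {φ' : κ' → κ'} (h : φ' 1 = 1)
    (N : ℕ) : φ'^[N] 1 = 1 := by
  induction N with
  | zero => rfl
  | succ N ih => rw [Function.iterate_succ_apply', ih, h]

private theorem cst_rt_inj (p : ℕ) [Fact p.Prime] (k : Type) [Field k] [CharP k p]
    [PerfectRing k p] (N : ℕ) (b : k) (h : (F2.rt p k)^[N] b = 0) : b = 0 := by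
  induction N with
  | zero => exact h
  | succ N ih =>
    apply ih
    rw [Function.iterate_succ_apply'] at h
    have h1 : (frobeniusEquiv k p).symm ((F2.rt p k)^[N] b) = 0 := h
    exact (map_eq_zero_iff _ (frobeniusEquiv k p).symm.injective).1 h1

private theorem cst_rt_zero (p : ℕ) [Fact p.Prime] (k : Type) [Field k] [CharP k p]
    [PerfectRing k p] (N : ℕ) : (F2.rt p k)^[N] 0 = 0 := by
  induction N with
  | zero => rfl
  | succ N ih => rw [Function.iterate_succ_apply', ih, map_zero]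

private theorem cst_rr {k : Type} [Field k] (z : kˣ) :
    rr z 0 = AddMonoidAlgebra.single 0 (((z⁻¹ : kˣ) : k) + (z : k)) := by
  unfold rr
  rw [neg_zero, AddMonoidAlgebra.single_add]

private theorem cst_cs {k : Type} [Field k] (b : k) :
    cs (AddMonoidAlgebra.single (0 : ℤ) b) = b := by
  unfold cs
  simp

theorem p_cst (hR1 : F2W.S_R1) (hnl : F2S.S_nl) (hrh : F2S.S_rh) : S_cst := by
  intro p m _ k K G _ _ _ _ _ _ C w hinz hneg κ κ' _ _ _ _ r' x' ac' φb φ' i y hRs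
  intro l ψ hνl hTl hψ hψ0 hgt
  obtain ⟨O, ρ, hO, hρ⟩ := hrh k K ℤ κ' w hinz.isv r' x' ac' hRs.isac
  -- general facts
  have hρ' : ∀ (f : K) (h : f ∈ O), ρ ⟨f, h⟩ = lc w ac' 0 f := fun f h => hρ ⟨f, h⟩
  have halgO : ∀ b : k, algebraMap k K b ∈ O := by
    intro b
    rw [hO]
    exact Or.inr (hinz.triv b).ge
  have hρalg : ∀ b : k, ρ ⟨algebraMap k K b, halgO b⟩ = algebraMap k κ' b := fun b => by
    rw [hρ', cst_lc_alg hinz.triv hRs.isac]
  have hρ0 : ∀ (f : K) (h : f ∈ O), Gt w 0 f → ρ ⟨f, h⟩ = 0 := by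
    intro f h hf
    rw [hρ']
    unfold lc
    rw [if_neg]
    rintro ⟨h1, h2⟩
    rcases hf with hf | hf
    · exact h1 hf
    · exact hf.ne' h2
  have hGt : ∀ (f : K) (h : f ∈ O), ρ ⟨f, h⟩ = 0 → Gt w 0 f := by
    intro f h hf
    by_cases hf0 : f = 0
    · exact Or.inl hf0
    · right
      rcases (hO f).1 h with h1 | h1
      · exact absurd h1 hf0
      · refine lt_of_le_of_ne h1 fun h2 => ?_
        rw [hρ'] at hf
        unfold lc at hf
        rw [if_pos ⟨hf0, h2.symm⟩] at hf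
        exact hRs.isac.ne f hf0 hf
  have hw1 : w 1 = 0 := by
    have := hinz.triv 1
    rwa [map_one] at this
  have hψi : w ψ⁻¹ = 0 := by
    have h1 := hinz.isv.mul ψ ψ⁻¹ hψ (inv_ne_zero hψ)
    rw [mul_inv_cancel₀ hψ, hw1, hψ0, zero_add] at h1
    exact h1.symm
  have mT : C.T l ∈ O := (hO _).2 (Or.inr hTl)
  have mψ : ψ ∈ O := (hO _).2 (Or.inr hψ0.ge)
  have mψi : ψ⁻¹ ∈ O := (hO _).2 (Or.inr hψi.ge)
  set Ψ : κ' := ρ ⟨ψ, mψ⟩ with hΨdef
  have hΨi : Ψ * ρ ⟨ψ⁻¹, mψi⟩ = 1 := by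
    rw [hΨdef, ← map_mul]
    have : (⟨ψ, mψ⟩ : O) * ⟨ψ⁻¹, mψi⟩ = 1 := Subtype.ext (mul_inv_cancel₀ hψ)
    rw [this, map_one]
  have hΨ0 : Ψ ≠ 0 := left_ne_zero_of_mul_eq_one hΨi
  have hΨinv : ρ ⟨ψ⁻¹, mψi⟩ = Ψ⁻¹ := eq_inv_of_mul_eq_one_right hΨi
  have hρT : ρ ⟨C.T l, mT⟩ = Ψ + Ψ⁻¹ := by
    have m1 : ψ + ψ⁻¹ - C.T l ∈ O := sub_mem (add_mem mψ mψi) mT
    have h1 := hρ0 _ m1 hgt
    have h2 : (⟨ψ + ψ⁻¹ - C.T l, m1⟩ : O) = ⟨ψ, mψ⟩ + ⟨ψ⁻¹, mψi⟩ - ⟨C.T l, mT⟩ := rfl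
    rw [h2, map_sub, map_add, hΨinv, sub_eq_zero] at h1
    exact h1.symm
  have hpol : ∃ (N : ℕ) (P : κ[X]), (Ψ + Ψ⁻¹) * y ^ N = P.eval₂ i y := by
    by_cases h0 : C.T l = 0
    · refine ⟨0, 0, ?_⟩
      have h1 := hρ' _ mT
      unfold lc at h1
      rw [if_neg (fun h => h.1 h0)] at h1
      rw [← hρT, h1, zero_mul, Polynomial.eval₂_zero]
    · have h1 : w (C.T l) = 0 := le_antisymm (hneg _ (C.T_mem l) h0) hTl
      obtain ⟨N, P, h2⟩ := hRs.pol _ (C.T_mem l) h0 h1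
      refine ⟨N, P, ?_⟩
      have h3 := hρ' _ mT
      unfold lc at h3
      rw [if_pos ⟨h0, h1⟩] at h3
      rw [← hρT, h3, h2]
  obtain ⟨N, P, hNP⟩ := hpol
  let _ : Algebra κ κ' := i.toAlgebra
  have hTor : Tor p κ φb φ' y := hRs.tor
  obtain ⟨c, n, hc, hΨc⟩ := hR1 κ κ' y hTor.tr hTor.gen Ψ N P hΨ0 (by
    rw [hNP, Polynomial.aeval_def]; rfl)
  have h2k : (2 : k) ≠ 0 := by
    intro h
    have h1 : ((2 : ℕ) : k) = 0 := by exact_mod_cast h
    rw [CharP.cast_eq_zero_iff k p 2] at h1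
    have h2 : p.Prime := Fact.out
    exact C.odd ((Nat.prime_dvd_prime_iff_eq h2 Nat.prime_two).1 h1)
  -- the exponent is zero
  have hn0 : n = 0 := by
    by_contra hn
    have hiter : ∀ f : K, Ge w 0 f → ∀ N : ℕ, Ge w 0 (C.φ^[N] f) ∧
        lc w ac' 0 (C.φ^[N] f) = φ'^[N] (lc w ac' 0 f) := by
      intro f hf N
      induction N with
      | zero => exact ⟨hf, rfl⟩
      | succ N ih =>
        rw [Function.iterate_succ_apply', Function.iterate_succ_apply', ← ih.2]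
        exact hRs.res _ ih.1
    obtain ⟨N1, e1⟩ := hnl p κ κ' φb φ' y hTor c n hn
    obtain ⟨N2, e2⟩ := hnl p κ κ' φb φ' y hTor c⁻¹ (-n) (neg_ne_zero.2 hn)
    obtain ⟨N3, e3⟩ := hnl p κ κ' φb φ' y hTor (c * c) (n + n) (by omega)
    obtain ⟨N4, e4⟩ := hnl p κ κ' φb φ' y hTor (c⁻¹ * c⁻¹) (-n + -n) (by omega)
    obtain ⟨N5, e5⟩ := C.tau (C.TB l)
    obtain ⟨N6, e6⟩ := C.tau (C.TB l * C.TB l)
    set M := N1 + N2 + N3 + N4 + N5 + N6 with hM
    have f1 := e1 M (by omega)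
    have f2 := e2 M (by omega)
    have f3 := e3 M (by omega)
    have f4 := e4 M (by omega)
    have f5 := e5 M (by omega)
    have f6 := e6 M (by omega)
    have hy : y ≠ 0 := by
      intro h
      apply hTor.tr
      rw [h]
      exact isAlgebraic_zero
    have g1 : Ψ⁻¹ = algebraMap κ κ' c⁻¹ * y ^ (-n) := by
      rw [hΨc, mul_inv, map_inv₀, zpow_neg]
    have g2 : φ'^[M] (Ψ + Ψ⁻¹) = 0 := by
      rw [cst_iter_add hTor.pinv, g1, f2, add_zero, hΨc, f1]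
    have g3 : (Ψ + Ψ⁻¹) * (Ψ + Ψ⁻¹) = algebraMap κ κ' (c * c) * y ^ (n + n) +
        algebraMap κ κ' (c⁻¹ * c⁻¹) * y ^ (-n + -n) + (1 + 1) := by
      have a1 : algebraMap κ κ' (c * c) * y ^ (n + n) = Ψ * Ψ := by
        rw [hΨc, map_mul, zpow_add₀ hy]; ring
      have a2 : algebraMap κ κ' (c⁻¹ * c⁻¹) * y ^ (-n + -n) = Ψ⁻¹ * Ψ⁻¹ := by
        rw [g1, map_mul, zpow_add₀ hy]; ring
      rw [a1, a2]
      field_simp
      ring
    have g4 : φ'^[M] ((Ψ + Ψ⁻¹) * (Ψ + Ψ⁻¹)) = 1 + 1 := by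
      rw [g3, cst_iter_add hTor.pinv, cst_iter_add hTor.pinv, cst_iter_add hTor.pinv, f3, f4,
        cst_iter_one hTor.one, add_zero, zero_add]
    -- compare with the constant term
    have q1 : algebraMap k κ' ((F2.rt p k)^[M] (cs (C.res (C.TB l)))) = 0 := by
      have h1 := (hiter (C.T l) ((hO _).1 mT) M).2
      have h2 : C.φ^[M] (C.T l) = algebraMap k K ((F2.rt p k)^[M] (cs (C.res (C.TB l)))) := f5
      rw [h2, cst_lc_alg hinz.triv hRs.isac, ← hρ' _ mT, hρT, g2] at h1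
      exact h1
    have mTT : C.T l * C.T l ∈ O := mul_mem mT mT
    have q2 : algebraMap k κ' ((F2.rt p k)^[M] (cs (C.res (C.TB l * C.TB l)))) = 1 + 1 := by
      have h1 := (hiter (C.T l * C.T l) ((hO _).1 mTT) M).2
      have h2 : C.φ^[M] (C.T l * C.T l) =
        algebraMap k K ((F2.rt p k)^[M] (cs (C.res (C.TB l * C.TB l)))) := f6
      have h3 : ρ ⟨C.T l * C.T l, mTT⟩ = (Ψ + Ψ⁻¹) * (Ψ + Ψ⁻¹) := by
        have : (⟨C.T l * C.T l, mTT⟩ : O) = ⟨C.T l, mT⟩ * ⟨C.T l, mT⟩ := rfl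
        rw [this, map_mul, hρT]
      rw [h2, cst_lc_alg hinz.triv hRs.isac, ← hρ' _ mTT, h3, g4] at h1
      exact h1
    have hres : C.res (C.TB l) =
        AddMonoidAlgebra.single 0 ((((C.χ l)⁻¹ : kˣ) : k) + ((C.χ l : kˣ) : k)) := by
      have h1 := C.res_T l
      rw [hνl, toAdd_one, cst_rr] at h1
      exact h1
    rw [hres, cst_cs, map_eq_zero] at q1
    have q3 := cst_rt_inj p k M _ q1
    rw [map_mul, hres, q3, AddMonoidAlgebra.single_zero, mul_zero] at q2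
    have q4 : cs (0 : Ls k) = 0 := by unfold cs; simp
    rw [q4, cst_rt_zero, map_zero] at q2
    apply h2k
    have q5 : algebraMap k κ' 2 = 0 := by
      rw [map_ofNat, ← one_add_one_eq_two, ← q2]
    exact (map_eq_zero _).1 q5
  -- the constant
  obtain ⟨a, ha⟩ := hRs.sj c
  have ha0 : a ≠ 0 := by
    intro h
    apply hc
    rw [← ha, h, map_zero]
  have hΨa : Ψ = algebraMap k κ' a := by
    rw [hΨc, hn0, zpow_zero, mul_one, ← ha]
    exact hRs.ia a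
  refine ⟨a, ha0, ?_, ?_⟩
  · refine hGt _ (sub_mem mψ (halgO a)) ?_
    have h1 : (⟨ψ - algebraMap k K a, sub_mem mψ (halgO a)⟩ : O) =
      ⟨ψ, mψ⟩ - ⟨algebraMap k K a, halgO a⟩ := rfl
    rw [h1, map_sub, hρalg, ← hΨdef, hΨa, sub_self]
  · have m2 : C.T l - (algebraMap k K a + algebraMap k K a⁻¹) ∈ O :=
      sub_mem mT (add_mem (halgO a) (halgO a⁻¹))
    have h1 : ρ ⟨_, m2⟩ = 0 := by
      have h2 : (⟨C.T l - (algebraMap k K a + algebraMap k K a⁻¹), m2⟩ : O) =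
        ⟨C.T l, mT⟩ - (⟨algebraMap k K a, halgO a⟩ + ⟨algebraMap k K a⁻¹, halgO a⁻¹⟩) := rfl
      rw [h2, map_sub, map_add, hρalg, hρalg, hρT, hΨa, map_inv₀, sub_self]
    have h3 := hGt _ m2 h1
    have m3 : C.T l - (algebraMap k K a + algebraMap k K a⁻¹) ∈ C.B :=
      sub_mem (C.T_mem l) (add_mem (C.B.algebraMap_mem a) (C.B.algebraMap_mem a⁻¹))
    by_contra hne
    have h4 : C.T l - (algebraMap k K a + algebraMap k K a⁻¹) ≠ 0 := fun h =>
      hne (sub_eq_zero.1 h)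
    have h5 := hneg _ m3 h4
    rcases h3 with h3 | h3
    · exact h4 h3
    · omega

end Pool.Agent.CZE1
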