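import Pool.Agent.Lib.MP_305fdd_al.CZ.E1.Stm

/-!
# MP_305fdd_al, `C_m * Z`, E1: the piece [CZ1 ng], `w` and `W` are semi-good
-/

set_option autoImplicit false

namespace Pool.Agent.CZE1

open Pool.Agent.F2Ch Pool.Agent.F2 Pool.Agent.F2W Pool.Agent.F2D Pool.Agent.F2RF Pool.Agent.F2PF
open Pool.Agent.CZ Polynomial
open scoped Topology

private theorem ng_lin (d e : Fin 2 → ℝ) (t : ℝ) (m : Fin 2 → ℤ) :
    wt (fun i => d i + t * e i) m = wt d m + t * wt e m := by
  simp only [wt, Fin.sum_univ_two, zsmul_eq_mul]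
  ring

private theorem ng_cast {u : Fin 2 → ℤ} {d e : Fin 2 → ℝ} {t c : ℝ}
    (h : ∀ i, (u i : ℝ) = c * (d i + t * e i)) (m : Fin 2 → ℤ) :
    ((wt u m : ℤ) : ℝ) = c * (wt d m + t * wt e m) := by
  simp only [wt, Fin.sum_univ_two, zsmul_eq_mul, smul_eq_mul]
  push_cast
  rw [h 0, h 1]
  ring

private theorem ng_lex (u e' m : Fin 2 → ℤ) :
    wt (fun i => toLex (u i, e' i)) m = toLex (wt u m, wt e' m) := by
  simp only [wt, Fin.sum_univ_two]
  rfl

private theorem ng_smul {Γ : Type} [AddCommGroup Γ] (u : Fin 2 → Γ) (j : ℤ) (m : Fin 2 → ℤ) :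
    wt u (j • m) = j • wt u m := by
  simp only [wt, Fin.sum_univ_two, smul_add, Pi.smul_apply, smul_assoc]

private theorem ng_ev1 {a b : ℝ} (ha : 0 < a) : ∀ᶠ ε in 𝓝[>] (0 : ℝ), 0 < a + ε * b := by
  have h1 : 0 < a / (|b| + 1) := div_pos ha (by positivity)
  filter_upwards [Ioo_mem_nhdsGT h1] with ε hε
  have h2 : ε * (|b| + 1) < a := (lt_div_iff₀ (by positivity)).1 hε.2
  have h3 : -|b| ≤ b := neg_abs_le b
  nlinarith [hε.1, mul_le_mul_of_nonneg_left h3 hε.1.le]

theorem p_ng : S_ng := by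
  intro p k K κ _ _ _ _ n g φ L d e t s c y u e' n0 w W hts hc hu hOn hSG hw hW hn0 hsgn f hf hf0
  obtain ⟨q, rfl⟩ := hf
  have hfB : MvPolynomial.aeval g q ∈ Br k g := ⟨q, rfl⟩
  refine ⟨?_, ?_⟩
  · obtain ⟨h1, -⟩ := hw.min q hf0
    obtain ⟨-, m, hm, hm2⟩ := (hOn t le_rfl hts).min q hf0
    have h2 := h1 m hm
    have h3 := hSG t le_rfl hts _ hfB hf0
    have h4 : ((wt u m : ℤ) : ℝ) ≤ 0 := by
      rw [ng_cast hu, ← ng_lin]
      rw [hm2] at h3
      exact mul_nonpos_of_nonneg_of_nonpos hc.le h3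
    have h5 : wt u m ≤ 0 := by exact_mod_cast h4
    exact h2.trans h5
  · by_contra hcon
    have hpos : 0 < W (MvPolynomial.aeval g q) := not_le.1 hcon
    obtain ⟨h1, -⟩ := hW.min q hf0
    have key : ∀ m ∈ (L (MvPolynomial.aeval g q)).coeff.support,
        ∀ᶠ ε in 𝓝[>] (0 : ℝ), 0 < wt (fun i => d i + (t + ε) * e i) m := by
      intro m hm
      have h2 : 0 < wt (fun i => toLex (u i, e' i)) m :=
        hpos.trans_le (h1 m (Finsupp.mem_support_iff.1 hm))
      rw [ng_lex] at h2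
      have h3 : 0 < wt u m ∨ 0 = wt u m ∧ 0 < wt e' m := by
        have := (Prod.Lex.lt_iff).1 h2
        exact this
      have hE : ∀ ε : ℝ, wt (fun i => d i + (t + ε) * e i) m =
          (wt d m + t * wt e m) + ε * wt e m := by
        intro ε
        rw [ng_lin]
        ring
      rcases h3 with h3 | ⟨h3, h4⟩
      · have h5 : 0 < wt d m + t * wt e m := by
          have h6 : (0 : ℝ) < ((wt u m : ℤ) : ℝ) := by exact_mod_cast h3
          rw [ng_cast hu] at h6
          exact pos_of_mul_pos_right h6 hc.le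
        filter_upwards [ng_ev1 (b := wt e m) h5] with ε hε
        rw [hE]
        exact hε
      · obtain ⟨j, rfl⟩ := (hn0 m).1 h3.symm
        have h5 : wt d (j • n0) + t * wt e (j • n0) = 0 := by
          have h6 : ((wt u (j • n0) : ℤ) : ℝ) = 0 := by rw [← h3]; norm_num
          rw [ng_cast hu] at h6
          exact (mul_eq_zero.1 h6).resolve_left hc.ne'
        have h7 : 0 < wt e (j • n0) := by
          rw [ng_smul] at h4 ⊢
          rw [zsmul_eq_mul]
          rw [smul_eq_mul] at h4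
          have h8 : (0 : ℝ) < (j : ℝ) * ((wt e' n0 : ℤ) : ℝ) := by exact_mod_cast h4
          by_contra h9
          have h9 := not_lt.1 h9
          nlinarith [mul_pos h8 hsgn, mul_nonneg (sq_nonneg ((wt e' n0 : ℤ) : ℝ))
            (neg_nonneg.2 h9)]
        filter_upwards [self_mem_nhdsWithin] with ε hε
        rw [hE, h5, zero_add]
        exact mul_pos hε h7
    have h2 : ∀ᶠ ε in 𝓝[>] (0 : ℝ), ∀ m ∈ (L (MvPolynomial.aeval g q)).coeff.support,
        0 < wt (fun i => d i + (t + ε) * e i) m := (Filter.eventually_all_finset _).2 key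
    have h3 : ∀ᶠ ε in 𝓝[>] (0 : ℝ), ε ∈ Set.Ioo 0 (s - t) := Ioo_mem_nhdsGT (sub_pos.2 hts)
    obtain ⟨ε, h4, h5⟩ := (h2.and h3).exists
    obtain ⟨-, m, hm, hm2⟩ := (hOn (t + ε) (by linarith [h5.1]) (by linarith [h5.2])).min q hf0
    have h6 := hSG (t + ε) (by linarith [h5.1]) (by linarith [h5.2]) _ hfB hf0
    rw [hm2] at h6
    exact absurd (h4 m (Finsupp.mem_support_iff.2 hm)) (not_lt.2 h6)

end Pool.Agent.CZE1
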