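import Pool.Agent.Lib.MP_305fdd_al.CZ.E1.Stm

/-!
# MP_305fdd_al, `C_m * Z`, piece [CZ1 noS]
-/

set_option autoImplicit false

namespace Pool.Agent.CZE1

open Pool.Agent.F2Ch Pool.Agent.F2 Pool.Agent.F2W Pool.Agent.F2D Pool.Agent.F2RF Pool.Agent.F2PF
open Pool.Agent.CZ Polynomial

section
variable {K : Type} [Field K] {v : K → ℤ}

private theorem noS_ge_add (hv : IsV v) {x y : K} (hx : Ge v 0 x) (hy : Ge v 0 y) :
    Ge v 0 (x + y) := by
  by_cases h : x + y = 0
  · exact Or.inl h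
  · by_cases hx0 : x = 0
    · rw [hx0, zero_add]; exact hy
    · by_cases hy0 : y = 0
      · rw [hy0, add_zero]; exact hx
      · exact Or.inr (le_trans (le_min (hx.resolve_left hx0) (hy.resolve_left hy0))
          (hv.add x y hx0 hy0 h))

private theorem noS_ge_mul (hv : IsV v) {x y : K} (hx : Ge v 0 x) (hy : Ge v 0 y) :
    Ge v 0 (x * y) := by
  by_cases hx0 : x = 0
  · left; rw [hx0, zero_mul]
  · by_cases hy0 : y = 0
    · left; rw [hy0, mul_zero]
    · right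
      rw [hv.mul x y hx0 hy0]
      exact add_nonneg (hx.resolve_left hx0) (hy.resolve_left hy0)

private theorem noS_ge_pow (hv : IsV v) {x : K} (h1 : Ge v 0 1) (hx : Ge v 0 x) (n : ℕ) :
    Ge v 0 (x ^ n) := by
  induction n with
  | zero => rw [pow_zero]; exact h1
  | succ n ih => rw [pow_succ]; exact noS_ge_mul hv ih hx

end

section
variable {p m : ℕ} [Fact p.Prime] {k K G : Type} [Field k] [CharP k p] [IsAlgClosed k]
  [Field K] [Algebra k K] [Group G]

private theorem noS_inv (C : Core p m k K G) (l : G) : C.T l⁻¹ = C.T l := by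
  have h1 := C.pc.rel 1 l
  rw [one_mul, one_mul, C.pc.one] at h1
  linear_combination h1

private theorem noS_npow (C : Core p m k K G) {w : K → ℤ} (hv : IsV w) (ht : Triv k w) (l : G)
    (hl : Ge w 0 (C.T l)) (N : ℕ) : Ge w 0 (C.T (l ^ N)) ∧ Ge w 0 (C.T (l ^ (N + 1))) := by
  have hc : ∀ c : k, Ge w 0 (algebraMap k K c) := fun c => Or.inr (by rw [ht c])
  induction N with
  | zero =>
    refine ⟨?_, by rw [zero_add, pow_one]; exact hl⟩
    rw [pow_zero, C.pc.one]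
    have := hc 2
    rwa [map_ofNat] at this
  | succ N ih =>
    refine ⟨ih.2, ?_⟩
    have h1 := C.pc.rel (l ^ (N + 1)) l
    rw [← pow_succ, pow_succ l N, mul_inv_cancel_right, ← pow_succ] at h1
    have h2 : C.T (l ^ (N + 1 + 1)) = C.T (l ^ (N + 1)) * C.T l +
        algebraMap k K (-1) * C.T (l ^ N) := by
      rw [map_neg, map_one]
      linear_combination h1
    rw [h2]
    exact noS_ge_add hv (noS_ge_mul hv ih.2 hl) (noS_ge_mul hv (hc _) ih.1)

private theorem noS_zpow (C : Core p m k K G) {w : K → ℤ} (hv : IsV w) (ht : Triv k w) (l : G)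
    (hl : Ge w 0 (C.T l)) (N : ℤ) : Ge w 0 (C.T (l ^ N)) := by
  cases N with
  | ofNat n => rw [Int.ofNat_eq_natCast, zpow_natCast]; exact (noS_npow C hv ht l hl n).1
  | negSucc n => rw [zpow_negSucc, noS_inv]; exact (noS_npow C hv ht l hl n).2

private theorem noS_pos (hIw : S_Iw) (hbk : S_bk) (C : Core p m k K G) (w : K → ℤ)
    (W : K → ℤ ×ₗ ℤ) (hP : Pt C w W) (l1 : G) (hl1 : 0 ≤ w (C.T l1))
    (hν : 0 < Multiplicative.toAdd (C.ν l1)) (f : C.B) (N : ℤ) (a : k) (hf : Ge w 0 (f : K))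
    (hN : N ≠ 0) (ha : a ≠ 0) (hres : C.res f = AddMonoidAlgebra.single N a) : False := by
  have hν1 : C.ν l1 ≠ 1 := by
    intro h
    rw [h, toAdd_one] at hν
    exact lt_irrefl _ hν
  have hv := hP.inz.isv
  have ht := hP.inz.triv
  have hcon : ∀ c : k, Ge w 0 (algebraMap k K c) := fun c => Or.inr (by rw [ht c])
  obtain ⟨e, he⟩ : ∃ e : ℕ, (e : ℤ) = Multiplicative.toAdd (C.ν l1) :=
    ⟨_, Int.toNat_of_nonneg hν.le⟩
  have he0 : (e : ℤ) ≠ 0 := by rw [he]; exact hν.ne'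
  -- the element l' = l1 ^ N
  have hz : C.res (C.TB (l1 ^ N)) = rr (C.χ (l1 ^ N)) (N * e) := by
    have h1 := C.res_T (l1 ^ N)
    rw [map_zpow C.ν, toAdd_zpow, smul_eq_mul, ← he] at h1
    exact h1
  obtain ⟨z, hzz⟩ : ∃ z : kˣ, z = C.χ (l1 ^ N) := ⟨_, rfl⟩
  rw [← hzz] at hz
  have hu : C.res (f ^ e) = AddMonoidAlgebra.single (N * e) (a ^ e) := by
    rw [map_pow, hres, AddMonoidAlgebra.single_pow, nsmul_eq_mul, mul_comm]
  have hae : a ^ e ≠ 0 := pow_ne_zero _ ha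
  -- g
  obtain ⟨g, hg⟩ : ∃ g : C.B, g = C.TB (l1 ^ N) -
    algebraMap k C.B (((z⁻¹ : kˣ) : k) * (a ^ e)⁻¹) * f ^ e := ⟨_, rfl⟩
  have hgr : C.res g = AddMonoidAlgebra.single (-(N * e)) (z : k) := by
    rw [hg, map_sub, map_mul, AlgHom.commutes, hz, hu, rr, AddMonoidAlgebra.coe_algebraMap,
      Function.comp_apply, AddMonoidAlgebra.single_mul_single, zero_add]
    have h1 : ((algebraMap k k) (((z⁻¹ : kˣ) : k) * (a ^ e)⁻¹)) * a ^ e = ((z⁻¹ : kˣ) : k) := by
      rw [Algebra.algebraMap_self, RingHom.id_apply, mul_assoc, inv_mul_cancel₀ hae, mul_one]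
    rw [h1]
    abel
  have hgw : Ge w 0 (g : K) := by
    have h1 : (g : K) = C.T (l1 ^ N) +
        algebraMap k K (-(((z⁻¹ : kˣ) : k) * (a ^ e)⁻¹)) * (f : K) ^ e := by
      rw [hg, map_neg]
      change C.T (l1 ^ N) - algebraMap k K _ * (f : K) ^ e = _
      ring
    rw [h1]
    refine noS_ge_add hv (noS_zpow C hv ht l1 (Or.inr hl1) N) (noS_ge_mul hv (hcon _) ?_)
    refine noS_ge_pow hv ?_ hf e
    have := hcon 1
    rwa [map_one] at this
  obtain ⟨u', hu'⟩ : ∃ u' : C.B, u' = algebraMap k C.B (((z⁻¹ : kˣ) : k) * (a ^ e)⁻¹) * g :=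
    ⟨_, rfl⟩
  have hur : C.res (f ^ e * u' - 1) = 0 := by
    rw [map_sub, map_one, map_mul, hu', map_mul, AlgHom.commutes, hu, hgr,
      AddMonoidAlgebra.coe_algebraMap, Function.comp_apply, AddMonoidAlgebra.single_mul_single,
      AddMonoidAlgebra.single_mul_single, zero_add, add_neg_cancel, AddMonoidAlgebra.one_def,
      sub_eq_zero]
    congr 1
    rw [Algebra.algebraMap_self, RingHom.id_apply]
    have h1 : ((z⁻¹ : kˣ) : k) * (z : k) = 1 := by rw [← Units.val_mul, inv_mul_cancel, Units.val_one]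
    calc a ^ e * (((z⁻¹ : kˣ) : k) * (a ^ e)⁻¹ * (z : k))
        = (a ^ e * (a ^ e)⁻¹) * (((z⁻¹ : kˣ) : k) * (z : k)) := by ring
      _ = 1 := by rw [h1, mul_inv_cancel₀ hae, one_mul]
  have huw : Ge w 0 ((f ^ e * u' - 1 : C.B) : K) := by
    have h1 : ((f ^ e * u' - 1 : C.B) : K) = (f : K) ^ e *
        (algebraMap k K (((z⁻¹ : kˣ) : k) * (a ^ e)⁻¹) * (g : K)) + algebraMap k K (-1) := by
      rw [hu', map_neg, map_one]
      change (f : K) ^ e * (algebraMap k K _ * (g : K)) - 1 = _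
      ring
    rw [h1]
    refine noS_ge_add hv (noS_ge_mul hv (noS_ge_pow hv ?_ hf e)
      (noS_ge_mul hv (hcon _) hgw)) (hcon _)
    have := hcon 1
    rwa [map_one] at this
  have h0 := hIw p m k K G C w hP.inz hP.nt hP.neg l1 hl1 hν1 (f ^ e * u' - 1) hur huw
  have hprod : ((f ^ e : C.B) : K) * (u' : K) = 1 := by
    have h1 : ((f ^ e * u' - 1 : C.B) : K) = ((f ^ e : C.B) : K) * (u' : K) - 1 := rfl
    rw [h1] at h0
    exact sub_eq_zero.mp h0
  have hu0 : ((f ^ e : C.B) : K) ≠ 0 := left_ne_zero_of_mul_eq_one hprod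
  have hu'0 : (u' : K) ≠ 0 := right_ne_zero_of_mul_eq_one hprod
  have hW : W ((f ^ e : C.B) : K) + W (u' : K) = 0 := by
    rw [← hP.inzW.isv.mul _ _ hu0 hu'0, hprod]
    have := hP.inzW.triv 1
    rwa [map_one] at this
  have hW1 := hP.negW _ (f ^ e : C.B).2 hu0
  have hW2 := hP.negW _ u'.2 hu'0
  have hW0 : 0 ≤ W ((f ^ e : C.B) : K) := by
    have : W ((f ^ e : C.B) : K) = -W (u' : K) := eq_neg_of_add_eq_zero_left hW
    rw [this]
    exact neg_nonneg.mpr hW2
  obtain ⟨b1, -, -⟩ := hbk p m k K G C w W hP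
  obtain ⟨c, hc⟩ := b1 _ (f ^ e : C.B).2 (Or.inr hW0)
  have hcB : f ^ e = algebraMap k C.B c := Subtype.ext hc
  rw [hcB, AlgHom.commutes, AddMonoidAlgebra.coe_algebraMap, Function.comp_apply] at hu
  have h5 : (AddMonoidAlgebra.single (0 : ℤ) (algebraMap k k c) : Ls k).coeff (N * e) =
      (AddMonoidAlgebra.single (N * e) (a ^ e) : Ls k).coeff (N * e) := by rw [hu]
  rw [AddMonoidAlgebra.coeff_single, AddMonoidAlgebra.coeff_single, Finsupp.single_eq_same,
    Finsupp.single_eq_of_ne (mul_ne_zero hN he0)] at h5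
  exact hae h5.symm

end

theorem p_noS (hIw : S_Iw) (hbk : S_bk) : S_noS := by
  intro p m _ k K G _ _ _ _ _ _ C w W hP l1 hl1 hν f N a hf hN ha hres
  have hn : Multiplicative.toAdd (C.ν l1) ≠ 0 := fun e => hν (toAdd_eq_zero.mp e)
  rcases lt_or_gt_of_ne hn with h | h
  · refine noS_pos hIw hbk C w W hP l1⁻¹ (by rw [noS_inv]; exact hl1) ?_ f N a hf hN ha hres
    rw [map_inv, toAdd_inv]
    exact neg_pos.mpr h
  · exact noS_pos hIw hbk C w W hP l1 hl1 h f N a hf hN ha hres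

end Pool.Agent.CZE1
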