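import Pool.Agent.Lib.MP_305fdd_al.CZ.E1.Stm

/-!
# MP_305fdd_al (`C_m * Z`), [CZ1 pt]: the divisorial point in the interior of a line
-/

set_option autoImplicit false

namespace Pool.Agent.CZE1

open Pool.Agent.F2Ch Pool.Agent.F2 Pool.Agent.F2W Pool.Agent.F2D Pool.Agent.F2RF Pool.Agent.F2PF
open Pool.Agent.CZ Polynomial

private theorem pt_smul_lex (a b c : ℤ) : a • (toLex (b, c) : ℤ ×ₗ ℤ) = toLex (a * b, a * c) := by
  change toLex ((a • b, a • c) : ℤ × ℤ) = _
  simp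

private theorem pt_wt (u m : Fin 2 → ℤ) : wt u m = m 0 * u 0 + m 1 * u 1 := by
  simp [wt, Fin.sum_univ_two]

private theorem pt_wtR (u : Fin 2 → ℝ) (m : Fin 2 → ℤ) :
    wt u m = (m 0 : ℝ) * u 0 + (m 1 : ℝ) * u 1 := by
  simp [wt, Fin.sum_univ_two]

private theorem pt_wt_smul (u m : Fin 2 → ℤ) (j : ℤ) : wt u (j • m) = j * wt u m := by
  rw [pt_wt, pt_wt]
  simp only [Pi.smul_apply, smul_eq_mul]
  ring

private theorem pt_wt_neg (u m : Fin 2 → ℤ) : wt (-u) m = - wt u m := by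
  rw [pt_wt, pt_wt]
  simp only [Pi.neg_apply]
  ring

/-- the residue field of `V` is `k` -/
private theorem pt_sj {k K κ Γ : Type} [Field k] [Field K] [Algebra k K] [Field κ] [Algebra k κ]
    [AddCommGroup Γ] [LinearOrder Γ] [IsOrderedAddMonoid Γ] {V : K → Γ} {x : Fin 2 → K}
    {ac : K → κ} (hac : IsAC k V x ac) (htr : Triv k V)
    (h : ∀ f : K, f ≠ 0 → V f = 0 → ∃ a : k, a ≠ 0 ∧ Gt V 0 (f - algebraMap k K a)) (z : κ) :
    ∃ a : k, algebraMap k κ a = z := by
  by_cases hz : z = 0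
  · exact ⟨0, by rw [hz, map_zero]⟩
  obtain ⟨f, hf0, hVf, hfz⟩ := hac.surj z hz
  obtain ⟨a, ha0, ha⟩ := h f hf0 hVf
  refine ⟨a, ?_⟩
  have hc0 : algebraMap k K (-a) ≠ 0 := by
    rw [_root_.map_ne_zero]
    exact neg_ne_zero.2 ha0
  have h1 := hac.add 0 f (algebraMap k K (-a)) (Or.inr hVf.ge) (Or.inr (htr (-a)).ge)
  have h2 : lc V ac 0 f = z := by
    unfold lc
    rw [if_pos ⟨hf0, hVf⟩, hfz]
  have h3 : lc V ac 0 (algebraMap k K (-a)) = - algebraMap k κ a := by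
    unfold lc
    rw [if_pos ⟨hc0, htr (-a)⟩, hac.alg, map_neg]
  have h4 : lc V ac 0 (f + algebraMap k K (-a)) = 0 := by
    have e : f + algebraMap k K (-a) = f - algebraMap k K a := by
      rw [map_neg, sub_eq_add_neg]
    rw [e]
    unfold lc
    rw [if_neg]
    rintro ⟨h5, h6⟩
    rcases ha with h7 | h7
    · exact h5 h7
    · rw [h6] at h7
      exact lt_irrefl _ h7
  rw [h2, h3, h4] at h1
  exact (sub_eq_zero.1 (by rw [sub_eq_add_neg]; exact h1.symm)).symm

/-- [CZ1 pt] -/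
theorem p_pt (hrat : S_rat) (hng : S_ng) (hrf : S_rf) (hrk : I_rk) (hn0 : F2S.S_n0)
    (hfl : F2S.S_fl) : S_pt := by
  intro p m _ k K G _ _ _ _ _ _ C s1 s2 y M hCL hSG
  obtain ⟨hs, κ, Γ, _, _, _, _, _, V, x, ex, ac, φb, N, L, d, e, hch, hD, hgood, hon, -⟩ := hCL
  obtain ⟨t, c, u, ht1, ht2, hc, hu0, hu⟩ := hrat d e s1 s2 hD hs
  have hwtR : ∀ n : Fin 2 → ℤ, ((wt u n : ℤ) : ℝ) = c * (wt d n + t * wt e n) := by
    intro n
    rw [pt_wt, pt_wtR, pt_wtR]
    push_cast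
    rw [hu 0, hu 1]
    ring
  have hgu : Good N u := by
    intro n hn
    have h1 := hgood t ht1 ht2 n hn
    have h2 : wt (fun i => d i + t * e i) n = wt d n + t * wt e n := by
      rw [pt_wtR, pt_wtR, pt_wtR]
      ring
    rw [h2] at h1
    have h3 : (0 : ℝ) < ((wt u n : ℤ) : ℝ) := by
      rw [hwtR]
      exact mul_pos hc h1
    exact_mod_cast h3
  obtain ⟨w, hw, hwx⟩ := hch.cell ℤ u hgu
  obtain ⟨n0, hn0', hker⟩ := hn0 u hu0
  have hen0 : wt e n0 ≠ 0 := by
    intro h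
    have h1 : wt u n0 = 0 := (hker n0).2 ⟨1, (one_smul ℤ n0).symm⟩
    have h2 := hwtR n0
    rw [h1, h, mul_zero, add_zero, Int.cast_zero] at h2
    have h3 : wt d n0 = 0 := by
      rcases mul_eq_zero.1 h2.symm with h4 | h4
      · exact absurd h4 hc.ne'
      · exact h4
    rw [pt_wtR] at h h3
    have h5 : (n0 0 : ℝ) * (d 0 * e 1 - d 1 * e 0) = 0 := by
      linear_combination e 1 * h3 - d 1 * h
    have h6 : (n0 1 : ℝ) * (d 0 * e 1 - d 1 * e 0) = 0 := by
      linear_combination d 0 * h - e 0 * h3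
    apply hn0'
    funext i
    fin_cases i
    · have := (mul_eq_zero.1 h5).resolve_right hD
      exact_mod_cast this
    · have := (mul_eq_zero.1 h6).resolve_right hD
      exact_mod_cast this
  have hν : 0 < wt n0 n0 := by
    rw [pt_wt]
    have h1 : n0 0 ≠ 0 ∨ n0 1 ≠ 0 := by
      by_contra hcon
      push Not at hcon
      apply hn0'
      funext i
      fin_cases i
      · exact hcon.1
      · exact hcon.2
    rcases h1 with h | h
    · have := mul_self_pos.2 h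
      have := mul_self_nonneg (n0 1)
      omega
    · have := mul_self_pos.2 h
      have := mul_self_nonneg (n0 0)
      omega
  have hνR : (0 : ℝ) < ((wt n0 n0 : ℤ) : ℝ) := by exact_mod_cast hν
  obtain ⟨e', he', hpos⟩ : ∃ e' : Fin 2 → ℤ, (e' = n0 ∨ e' = -n0) ∧
      0 < ((wt e' n0 : ℤ) : ℝ) * wt e n0 := by
    rcases lt_or_gt_of_ne hen0 with h | h
    · refine ⟨-n0, Or.inr rfl, ?_⟩
      rw [pt_wt_neg]
      push_cast
      nlinarith [mul_pos hνR (neg_pos.2 h)]
    · exact ⟨n0, Or.inl rfl, mul_pos hνR h⟩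
  have he'0 : wt e' n0 ≠ 0 := by
    intro h
    rw [h, Int.cast_zero, zero_mul] at hpos
    exact lt_irrefl _ hpos
  obtain ⟨W, hW, hWx, hW1, hWm⟩ :=
    hfl p k K κ Γ C.n C.t C.fracgen C.φ V x ex ac φb N L hch u w hgu hw e'
  have hneg := hng p k K κ C.n C.t C.φ L d e t s2 c y u e' n0 w W ht2 hc hu
    (fun t' h1 h2 => (hon t' (ht1.le.trans h1) h2.le).1)
    (fun t' h1 h2 => hSG t' (ht1.trans_le h1) h2) hw hW hker hpos
  have hBr : ∀ f ∈ C.B, f ∈ Br k C.t := fun f hf => (C.mem_B f).1 hf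
  refine ⟨w, W, ⟨hw.inz, hW.inz, fun f hf hf0 => (hneg f (hBr f hf) hf0).1,
    fun f hf hf0 => (hneg f (hBr f hf) hf0).2, hW1, ?_, ?_, ?_⟩, ?_⟩
  · -- nt
    have h1 : ∃ i, u i ≠ 0 := by
      by_contra hcon
      push Not at hcon
      exact hu0 (funext hcon)
    obtain ⟨i, hi⟩ := h1
    exact ⟨x i, by rw [hwx i]; exact hi⟩
  · -- two
    refine ⟨x 0, x 1, hch.vb.ne 0, hch.vb.ne 1, ?_⟩
    intro a b hab
    rw [hWx, hWx, pt_smul_lex, pt_smul_lex, ← toLex_add, Prod.mk_add_mk] at hab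
    have h0 : ((a * u 0 + b * u 1, a * e' 0 + b * e' 1) : ℤ × ℤ) = (0, 0) := hab
    rw [Prod.mk.injEq] at h0
    have h1 : wt u ![a, b] = 0 := by
      rw [pt_wt]
      simpa using h0.1
    obtain ⟨j, hj⟩ := (hker _).1 h1
    have h2 : wt e' ![a, b] = 0 := by
      rw [pt_wt]
      simpa using h0.2
    rw [hj, pt_wt_smul] at h2
    rcases mul_eq_zero.1 h2 with h3 | h3
    · rw [h3, zero_smul] at hj
      constructor
      · have := congrFun hj 0
        simpa using this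
      · have := congrFun hj 1
        simpa using this
    · exact absurd h3 he'0
  · -- disc
    refine ⟨toLex (0, wt n0 n0), ?_, ?_⟩
    · rw [Prod.Lex.lt_iff]
      exact Or.inr ⟨rfl, hν⟩
    · intro f hf0 hwf
      obtain ⟨n, hn⟩ := hWm f hf0
      have h1 : wt u n = 0 := by
        rw [← hwf, ← hW1 f, hn]
        rfl
      obtain ⟨j, hj⟩ := (hker n).1 h1
      rcases he' with rfl | rfl
      · refine ⟨j, ?_⟩
        rw [hn, h1, pt_smul_lex, hj, pt_wt_smul, mul_zero]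
      · refine ⟨-j, ?_⟩
        rw [hn, h1, pt_smul_lex, hj, pt_wt_smul, pt_wt_neg, mul_zero]
        congr 2
        ring
  · -- Rs
    obtain ⟨κ', _, _, r', x', ac', φ', i, y', hac, hres, hTor, hpol, hia⟩ :=
      hrf p k K κ Γ C.n C.t C.fracgen 2 C.b0 C.ρ0 C.pb C.φ C.pinv C.one V x ex ac φb N L hch u w
        hgu hw hu0
    refine ⟨κ, κ', inferInstance, inferInstance, inferInstance, inferInstance, r', x', ac', φb, φ',
      i, y', hac, hres, hTor, ?_, ?_, hia⟩
    · intro f hf hf0 hwf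
      obtain ⟨q, hq⟩ := (C.mem_B f).1 hf
      have h1 := hpol q (by rw [hq]; exact hf0) (by rw [hq]; exact hwf)
      rwa [hq] at h1
    · refine pt_sj hch.isac hch.onch.inz.triv ?_
      refine hrk p m k K G C Γ V hch.onch.inz ⟨x 0, x 1, hch.vb.ne 0, hch.vb.ne 1, ?_⟩
      intro a b hab
      have h1 := hch.vb.indep ![a, b] (by
        rw [← hab]
        simp [wt, Fin.sum_univ_two])
      constructor
      · have := congrFun h1 0
        simpa using this
      · have := congrFun h1 1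
        simpa using this

end Pool.Agent.CZE1
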