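import Pool.Agent.Lib.MP_305fdd_al.CZ.E1.Stm

/-!
# MP_305fdd_al (`C_m * Z`), section E1: [CZ1 rf]
-/

set_option autoImplicit false

namespace Pool.Agent.CZE1

open Pool.Agent.F2Ch Pool.Agent.F2 Pool.Agent.F2W Pool.Agent.F2D Pool.Agent.F2RF Pool.Agent.F2PF
open Pool.Agent.CZ Polynomial

private theorem rf_part_coeff {κ : Type} [Field κ] {r : ℕ} (u : Fin r → ℤ) (c : ℤ)
    (P : AddMonoidAlgebra κ (Fin r → ℤ)) (m : Fin r → ℤ) (hm : (part u c P).coeff m ≠ 0) :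
    wt u m = c ∧ (part u c P).coeff m = P.coeff m := by
  classical
  have h : (part u c P).coeff m = if wt u m = c then P.coeff m else 0 := by
    unfold part
    rw [AddMonoidAlgebra.coeff_ofCoeff, Finsupp.filter_apply]
  by_cases h1 : wt u m = c
  · rw [if_pos h1] at h
    exact ⟨h1, h⟩
  · rw [if_neg h1] at h
    exact absurd h hm

theorem p_rf (hX1 : S_X1) (hX2 : S_X2) (hR7 : F2W.S_R7) (hR8 : F2W.S_R8) : S_rf := by
  intro p _ k K κ Γ _ _ _ _ _ _ _ _ _ _ n g hg dd b0 ρ0 hb0 φ hφ hφ1 V x ex ac φb N L hch u w hgood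
    hon hu
  have : CharP κ p := charP_of_injective_algebraMap (algebraMap k κ).injective p
  obtain ⟨Φ, hΦ⟩ := hX1 p κ 2 φb hch.pinv
  obtain ⟨AC, hAC⟩ := hch.lform ℤ u w Φ hΦ hgood hon
  obtain ⟨r', s', κ', fκ', aκ', x', ex', ac', φ', N', L', hch', -, -, -, -⟩ :=
    hX2 p k K ℤ n g hg dd b0 ρ0 hb0 φ hφ hφ1 w hon.inz
  obtain ⟨ι, h1, h2, h3, h4⟩ := hR7 p k K κ κ' n 2 g φ x L Φ u w AC hAC hΦ.pinv hon.inz.isv r' x'
    ac' hch'.isac φ' hch'.res
  obtain ⟨i, y, h5, h6, h7⟩ := hR8 p κ κ' φb Φ φ' u ι hu hch.pinv hch.one hΦ hch'.pinv hch'.one h3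
    h4
  refine ⟨κ', fκ', aκ', r', x', ac', φ', i, y, hch'.isac, hch'.res, h6, ?_, ?_⟩
  · intro q hq hwq
    have e1 : ι (ac' (MvPolynomial.aeval g q)) =
        toLF (part u 0 (L (MvPolynomial.aeval g q))) := by
      rw [h1 _ hq hwq, hAC.eq q hq, hwq]
    exact h7 _ _ (fun m hm => (rf_part_coeff u 0 _ m hm).1) e1
  · intro a
    rcases eq_or_ne a 0 with rfl | ha
    · simp
    · apply ι.injective
      rw [h5, ← hAC.alg a, ← hch'.isac.alg a]
      have h8 : algebraMap k K a ≠ 0 := by simpa using ha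
      rw [h1 _ h8 (hon.inz.triv a)]

end Pool.Agent.CZE1
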