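import Pool.Agent.Lib.MP_305fdd_al.CZ.E1.Stm

set_option autoImplicit false

/-!
# MP_305fdd_al (`C_m * Z`), E1: piece tc
-/

namespace Pool.Agent.CZE1

open Pool.Agent.F2Ch Pool.Agent.F2 Pool.Agent.F2W Pool.Agent.F2D Pool.Agent.F2RF Pool.Agent.F2PF
open Pool.Agent.CZ Polynomial

private theorem tc_two {p : ℕ} [Fact p.Prime] {k K : Type} [Field k] [CharP k p] [Field K]
    [Algebra k K] (hp : p ≠ 2) : (2 : K) ≠ 0 := by
  have h1 : (2 : k) ≠ 0 := by
    intro h
    have h2 : ((2 : ℕ) : k) = 0 := by exact_mod_cast h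
    rw [CharP.cast_eq_zero_iff k p] at h2
    have hp1 : p.Prime := Fact.out
    exact hp ((Nat.prime_dvd_prime_iff_eq hp1 Nat.prime_two).1 h2)
  intro h
  apply h1
  apply (algebraMap k K).injective
  rw [map_ofNat, map_zero]
  exact h

private theorem tc_inv {G K : Type} [Group G] [Field K] (T : G → K) (h : PC T) (x : G) :
    T x⁻¹ = T x := by
  have h1 := h.rel 1 x
  rw [one_mul, one_mul, h.one] at h1
  linear_combination h1

private theorem tc_add {K : Type} [Field K] (w : K → ℤ) (hw : IsV w) {f g : K} (hf : Ge w 0 f)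
    (hg : Ge w 0 g) : Ge w 0 (f + g) := by
  by_cases h1 : f = 0
  · rw [h1, zero_add]
    exact hg
  by_cases h2 : g = 0
  · rw [h2, add_zero]
    exact hf
  by_cases h3 : f + g = 0
  · exact Or.inl h3
  · exact Or.inr (le_trans (le_min (hf.resolve_left h1) (hg.resolve_left h2))
      (hw.add f g h1 h2 h3))

private theorem tc_mul {K : Type} [Field K] (w : K → ℤ) (hw : IsV w) {f g : K} (hf : Ge w 0 f)
    (hg : Ge w 0 g) : Ge w 0 (f * g) := by
  by_cases h1 : f = 0
  · exact Or.inl (by rw [h1, zero_mul])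
  by_cases h2 : g = 0
  · exact Or.inl (by rw [h2, mul_zero])
  · refine Or.inr ?_
    rw [hw.mul f g h1 h2]
    exact add_nonneg (hf.resolve_left h1) (hg.resolve_left h2)

private theorem tc_rr {k : Type} [Field k] (z : kˣ) (n : ℤ) (hn : n ≠ 0) : rr z n ≠ 0 := by
  intro h
  have h1 : (rr z n).coeff n = 0 := by rw [h]; rfl
  unfold rr at h1
  rw [AddMonoidAlgebra.coeff_add, AddMonoidAlgebra.coeff_single, AddMonoidAlgebra.coeff_single,
    Finsupp.add_apply, Finsupp.single_eq_same, Finsupp.single_apply, if_neg (by omega),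
    add_zero] at h1
  exact z⁻¹.ne_zero h1

theorem p_tc : S_tc := by
  intro p m _ k K G _ _ _ _ _ _ C
  refine ⟨?_, ?_, ?_⟩
  · intro h
    have h1 := C.pc.rel C.c h
    rw [C.T_c] at h1
    have hc : C.c⁻¹ = C.c := inv_eq_of_mul_eq_one_left C.c_sq
    have h2 : C.T (C.c * h⁻¹) = C.T (C.c * h) := by
      rw [← tc_inv C.T C.pc (C.c * h⁻¹), mul_inv_rev, inv_inv, hc, C.pc.comm]
    rw [h2] at h1
    have h3 : (2 : K) * (C.T (C.c * h) + C.T h) = 0 := by linear_combination h1
    have h4 := (mul_eq_zero.1 h3).resolve_left (tc_two (k := k) C.odd)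
    linear_combination h4
  · intro w W hP
    by_contra hcon
    push Not at hcon
    have hB : ∀ f ∈ C.B, Ge w 0 f := by
      intro f hf
      rw [← C.adj] at hf
      refine Algebra.adjoin_induction (p := fun f _ => Ge w 0 f) ?_ ?_ ?_ ?_ hf
      · rintro x ⟨g, rfl⟩
        exact Or.inr (hcon g)
      · intro r
        exact Or.inr (hP.inz.triv r).ge
      · intro x y _ _ hx hy
        exact tc_add w hP.inz.isv hx hy
      · intro x y _ _ hx hy
        exact tc_mul w hP.inz.isv hx hy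
    have hB0 : ∀ f ∈ C.B, f ≠ 0 → w f = 0 := fun f hf hf0 =>
      le_antisymm (hP.neg f hf hf0) ((hB f hf).resolve_left hf0)
    obtain ⟨f, hf⟩ := hP.nt
    have hf0 : f ≠ 0 := by
      rintro rfl
      exact hf hP.inz.isv.zero
    obtain ⟨a, b, hb, hab⟩ := C.fracgen f
    have h1 := hB0 _ ((C.mem_B _).2 ⟨b, rfl⟩) hb
    have ha : MvPolynomial.aeval C.t a ≠ 0 := by
      rw [← hab]
      exact mul_ne_zero hf0 hb
    have h2 := hB0 _ ((C.mem_B _).2 ⟨a, rfl⟩) ha
    have h3 := hP.inz.isv.mul f _ hf0 hb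
    rw [hab, h1, h2, add_zero] at h3
    exact hf h3.symm
  · intro l hl h0
    have h1 := C.res_T l
    have h2 : (⟨C.T l, C.T_mem l⟩ : C.B) = 0 := Subtype.ext h0
    rw [h2, map_zero] at h1
    refine tc_rr (C.χ l) (Multiplicative.toAdd (C.ν l)) ?_ h1.symm
    intro h3
    exact hl (Multiplicative.toAdd.injective h3)

end Pool.Agent.CZE1
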