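import Pool.Agent.Lib.MP_305fdd_al.CZ.E1.Stm

/-!
# MP_305fdd_al (`C_m * Z`), section E1: [CZ1 tr1]
-/

set_option autoImplicit false

namespace Pool.Agent.CZE1

open Pool.Agent.F2Ch Pool.Agent.F2 Pool.Agent.F2W Pool.Agent.F2D Pool.Agent.F2RF Pool.Agent.F2PF
open Pool.Agent.CZ Polynomial

theorem p_tr1 (hX2 : S_X2) (hZ3 : S_Z3) : S_tr1 := by
  intro p m _ k K G _ _ _ _ _ _ C w hw hnt f h hf hh
  obtain ⟨r, s, κ, i1, i2, x, ex, ac, φb, N, L, hCh, hrs, htr, -, -⟩ :=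
    hX2 p k K ℤ C.n C.t C.fracgen 2 C.b0 C.ρ0 C.pb C.φ C.pinv C.one w hw
  have hr : 1 ≤ r := by
    by_contra hlt
    have hr0 : r = 0 := by omega
    subst hr0
    obtain ⟨f0, hf0⟩ := hnt
    apply hf0
    rcases eq_or_ne f0 0 with rfl | hne
    · exact hw.isv.zero
    · rw [hCh.vb.gen f0 hne]
      simp [wt]
  have hs : s ≤ 1 := by omega
  refine hZ3 k K ℤ κ w hw.isv hw.triv r x ac hCh.isac ?_ f h hf hh
  rw [htr]
  exact_mod_cast hs

end Pool.Agent.CZE1
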