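import Pool.Agent.Lib.MP_305fdd_al.CZ.E1.Asm
import Pool.Agent.Lib.MP_305fdd_al.CZ.E1.p_Iw
import Pool.Agent.Lib.MP_305fdd_al.CZ.E1.p_bk
import Pool.Agent.Lib.MP_305fdd_al.CZ.E1.p_cI
import Pool.Agent.Lib.MP_305fdd_al.CZ.E1.p_cII
import Pool.Agent.Lib.MP_305fdd_al.CZ.E1.p_cst
import Pool.Agent.Lib.MP_305fdd_al.CZ.E1.p_ng
import Pool.Agent.Lib.MP_305fdd_al.CZ.E1.p_noS
import Pool.Agent.Lib.MP_305fdd_al.CZ.E1.p_pt
import Pool.Agent.Lib.MP_305fdd_al.CZ.E1.p_rat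
import Pool.Agent.Lib.MP_305fdd_al.CZ.E1.p_rf
import Pool.Agent.Lib.MP_305fdd_al.CZ.E1.p_tc
import Pool.Agent.Lib.MP_305fdd_al.CZ.E1.p_tr1
import Pool.Agent.Lib.MP_305fdd_al.F2.S.p_n0
import Pool.Agent.Lib.MP_305fdd_al.F2.S.p_fl
import Pool.Agent.Lib.MP_305fdd_al.F2.S.p_nl
import Pool.Agent.Lib.MP_305fdd_al.F2.S.p_rh
import Pool.Agent.Lib.MP_305fdd_al.F2.W.Main
import Pool.Agent.Lib.MP_305fdd_al.F2.ChMain
import Pool.Agent.Lib.MP_305fdd_al.CZ.D.Main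
import Pool.Agent.Lib.MP_305fdd_al.CZ.W.P_rk

/-!
# MP_305fdd_al (`C_m * Z`), section E1: no open interval of a line consists of semi-good points
-/

set_option autoImplicit false

namespace Pool.Agent.CZE1

open Pool.Agent.CZ

theorem m_rk : I_rk := by
  intro p m _ k K G _ _ _ _ _ _ C Γ _ _ _ V hV h2
  exact (CZW.p_rk C Γ V hV h2).1

theorem m_rf : S_rf := p_rf F2Ch.t_X1 F2Ch.t_X2 F2W.t_R7 F2W.t_R8
theorem m_pt : S_pt := p_pt p_rat p_ng m_rf m_rk F2S.p_n0 F2S.p_fl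
theorem m_bk : S_bk := p_bk m_rk
theorem m_cst : S_cst := p_cst F2W.t_R1 F2S.p_nl F2S.p_rh
theorem m_cI : S_cI := p_cI m_bk p_tc m_dl m_tt m_cl m_two m_tb m_ex
theorem m_tr1 : S_tr1 := p_tr1 F2Ch.t_X2 F2W.t_Z3
theorem m_Iw : S_Iw := p_Iw m_tr1
theorem m_noS : S_noS := p_noS m_Iw m_bk
theorem m_cII : S_cII := p_cII m_noS p_tc m_dl m_tt m_tl

/-- E1 -/
theorem m_E1 : I_E1 := asm m_pt m_cst m_cI m_cII

end Pool.Agent.CZE1
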