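import Pool.Agent.Lib.MP_305fdd_al.CZ.E.Ifc
import Pool.Agent.Lib.MP_305fdd_al.CZ.D.Stm
import Pool.Agent.Lib.MP_305fdd_al.F2.S.Stm

/-!
# MP_305fdd_al (`C_m * Z`), E1: no open interval of a line consists of semi-good points. Pieces [CZ1 ..]

Every `def S_xx : Prop` is one independive piece; its docstring contains the complete proof.  The other statements, `I_rk` (`CZ/E/Ifc.lean`) and the statements of
the F_2 project (`F2S.S_n0`, `F2S.S_fl`, `F2W.S_R1`, `F2Ch.S_X2`, ..; they are proved, theorems `F2Ch.t_X2`, `F2W.t_R1`, `F2S.p_n0`, ..) may be taken as hypotheses.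

`C : Core p m k K G`, `B = C.B = Br k C.t` (as sets, `C.mem_B`), `T = C.T`, `res = C.res : B → Ls k`, `cs a` = constant term of `a`.
`w : K → ℤ` is a divisorial valuation inside the line and `W : K → ℤ ×ₗ ℤ` is a flag at `w` (first component `w`); both are `≤ 0` on `B - 0`.
Facts used all the time: for `IsV v`: `v 1 = 0`, `v (-1) = 0`, `v x⁻¹ = - v x`, `v (x ^ n) = n v x`; `{f | Ge v 0 f}` is closed under sums and products; `Triv`: constants have value `0`.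
(SG) If `f ∈ B` and `Gt w 0 f` then `f = 0` (the same for `W`).
-/

set_option autoImplicit false

namespace Pool.Agent.CZE1

open Pool.Agent.F2Ch Pool.Agent.F2 Pool.Agent.F2W Pool.Agent.F2D Pool.Agent.F2RF Pool.Agent.F2PF
open Pool.Agent.CZ Polynomial

section

variable {p m : ℕ} [Fact p.Prime] {k K G : Type} [Field k] [CharP k p] [IsAlgClosed k]
  [Field K] [Algebra k K] [Group G]

/-- the data at a divisorial point `w` in the interior of the line, `W` a flag at `w` -/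
structure Pt (C : Core p m k K G) (w : K → ℤ) (W : K → ℤ ×ₗ ℤ) : Prop where
  inz : InZ k p C.φ w
  inzW : InZ k p C.φ W
  neg : ∀ f ∈ C.B, f ≠ 0 → w f ≤ 0
  negW : ∀ f ∈ C.B, f ≠ 0 → W f ≤ 0
  fst : ∀ f, (ofLex (W f)).1 = w f
  nt : ∃ f, w f ≠ 0
  two : ∃ x1 x2 : K, x1 ≠ 0 ∧ x2 ≠ 0 ∧ ∀ a b : ℤ, a • W x1 + b • W x2 = 0 → a = 0 ∧ b = 0
  disc : Disc' w W

/-- the residue field `κ'` of `w` is `κ(y)`, `κ = k` -/
structure Rs (C : Core p m k K G) (w : K → ℤ) {κ κ' : Type} [Field κ] [Algebra k κ] [Field κ']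
    [Algebra k κ'] {r' : ℕ} (x' : Fin r' → K) (ac' : K → κ') (φb : κ → κ) (φ' : κ' → κ')
    (i : κ →+* κ') (y : κ') : Prop where
  isac : IsAC k w x' ac'
  res : ∀ f, Ge w 0 f → Ge w 0 (C.φ f) ∧ lc w ac' 0 (C.φ f) = φ' (lc w ac' 0 f)
  tor : letI := i.toAlgebra; Tor p κ φb φ' y
  pol : ∀ f ∈ C.B, f ≠ 0 → w f = 0 → ∃ (N : ℕ) (P : κ[X]), ac' f * y ^ N = P.eval₂ i y
  sj : ∀ c : κ, ∃ a : k, algebraMap k κ a = c
  ia : ∀ a : k, i (algebraMap k κ a) = algebraMap k κ' a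

/-- all elements of nonnegative value have a constant eigenvalue -/
def Cst (C : Core p m k K G) (w : K → ℤ) : Prop :=
  ∀ (l : G) (ψ : K), C.ν l = 1 → 0 ≤ w (C.T l) → ψ ≠ 0 → w ψ = 0 →
    Gt w 0 (ψ + ψ⁻¹ - C.T l) → ∃ a : k, a ≠ 0 ∧ Gt w 0 (ψ - algebraMap k K a) ∧
      C.T l = algebraMap k K a + algebraMap k K a⁻¹

end

/-! ## 1. The point `w` -/

/-- [CZ1 rat] (about 70 lines) Rational directions are dense.
Proof. `D = d 0 * e 1 - d 1 * e 0 ≠ 0`. Let `t0 = (s1 + s2) / 2`, `z = d + t0 e`. For `v = (v0, v1) ∈ ℝ²` let `α v = (v0 e1 - v1 e0) / D`, `β v = (d0 v1 - d1 v0) / D`, so `v = α d + β e`; `α z = 1`, `β z = t0`. By continuity there is `δ > 0` such that `|v0 - z0| < δ`, `|v1 - z1| < δ` imply `α v > 0` and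
`s1 < β v / α v < s2` (explicitly: `|α v - 1| ≤ A δ`, `|β v - t0| ≤ A δ`; or take the open set `{v | 0 < α v ∧ s1 α v < β v ∧ β v < s2 α v}` of `ℝ × ℝ`, it contains `z` and `ℚ × ℚ` is dense: `Rat.denseRange_cast.prodMap`, `DenseRange.exists_mem_open`). Take `v` rational with a common denominator `n > 0` (`n = v0.den * v1.den`),
`u = n v` integral, `t = β v / α v`, `c = n α v > 0`: `u = n (α d + β e) = c (d + t e)`. `u ≠ 0`: otherwise `d + t e = 0`, so `D = 0`. -/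
def S_rat : Prop :=
  ∀ (d e : Fin 2 → ℝ) (s1 s2 : ℝ), d 0 * e 1 - d 1 * e 0 ≠ 0 → s1 < s2 →
    ∃ (t c : ℝ) (u : Fin 2 → ℤ), s1 < t ∧ t < s2 ∧ 0 < c ∧ u ≠ 0 ∧
      ∀ i, (u i : ℝ) = c * (d i + t * e i)

/-- [CZ1 ng] (about 120 lines) `w` and `W` are semi-good.
Proof. Let `f = aeval g q ∈ B`, `f ≠ 0`, `S` = the (finite, nonempty by `OnCh.min`) set of the exponents of `L f`. `(wt u m : ℝ) = c * (wt d m + t * wt e m)` for all `m` (here `wt e m = ∑ i, m i • e i` in `ℝ`). (1) `OnCh.min` for `w`: `w f = wt u m` for some `m ∈ S`; `y t f = wt d m' + t wt e m'` for some `m' ∈ S` and `wt u m ≤ wt u m'`; so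
`(w f : ℝ) ≤ c * y t f ≤ 0` (`SG`). (2) Suppose `0 < W f`. For every `m ∈ S`: `W f ≤ toLex (wt u m, wt e' m)`, so `0 < toLex (wt u m, wt e' m)`: `0 < wt u m`, or `wt u m = 0` and `0 < wt e' m`; in the second case `m = j • n0`, `wt e' m = j * wt e' n0 > 0` and `wt e m = j * wt e n0`, and `0 < wt e' n0 * wt e n0`, so `0 < wt e m` (in `ℝ`).
So for every `m ∈ S` there is `ε_m > 0` such that `wt d m + (t + ε) wt e m > 0` for `0 < ε < ε_m` (its value for `ε = 0` is `wt u m / c`). Let `ε > 0` be smaller than all `ε_m`, `m ∈ S`, and `t + ε < s`. `OnCh.min` for `y (t + ε)`: `y (t + ε) f = wt d m + (t + ε) wt e m > 0` for some `m ∈ S`, against `SG`. -/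
def S_ng : Prop :=
  ∀ (p : ℕ) (k K κ : Type) [Field k] [Field K] [Algebra k K] [Field κ] (n : ℕ) (g : Fin n → K)
    (φ : K → K) (L : K → AddMonoidAlgebra κ (Fin 2 → ℤ)) (d e : Fin 2 → ℝ) (t s c : ℝ)
    (y : ℝ → K → ℝ) (u e' n0 : Fin 2 → ℤ) (w : K → ℤ) (W : K → ℤ ×ₗ ℤ), t < s → 0 < c →
    (∀ i, (u i : ℝ) = c * (d i + t * e i)) →
    (∀ t', t ≤ t' → t' < s → OnCh k p φ g L (fun i => d i + t' * e i) (y t')) →
    (∀ t', t ≤ t' → t' < s → SG (Br k g) (y t')) → OnCh k p φ g L u w →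
    OnCh k p φ g L (fun i => toLex (u i, e' i)) W →
    (∀ m : Fin 2 → ℤ, wt u m = 0 ↔ ∃ j : ℤ, m = j • n0) →
    0 < ((wt e' n0 : ℤ) : ℝ) * wt e n0 → ∀ f ∈ Br k g, f ≠ 0 → w f ≤ 0 ∧ W f ≤ 0

/-- [CZ1 rf] (about 150 lines, copy) `F2S.S_rf` with `p ^ dd` instead of `p ^ 3`. Uses `F2Ch.S_X1`, `F2Ch.S_X2`, `F2W.S_R7`, `F2W.S_R8`.
Proof. COPY of `F2/S/p_rf.lean` (the number `3` is not used). The last statement: `ι (i (algebraMap a)) = toLF (single 0 (algebraMap a)) = AC (algebraMap k K a)` (`LForm.alg`) `= ι (ac' (algebraMap k K a)) = ι (algebraMap k κ' a)` for `a ≠ 0` (`Triv`, `IsAC.alg`), and `ι` is injective. -/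
def S_rf : Prop :=
  ∀ (p : ℕ) [Fact p.Prime] (k K κ Γ : Type) [Field k] [CharP k p] [PerfectRing k p] [Field K]
    [Algebra k K] [Field κ] [Algebra k κ] [AddCommGroup Γ] [LinearOrder Γ] [IsOrderedAddMonoid Γ]
    (n : ℕ) (g : Fin n → K), FracGen k g → ∀ (dd : ℕ) (b0 : Fin (p ^ dd) → K)
    (ρ0 : Fin (p ^ dd) → K → K), IsPB p b0 ρ0 → ∀ φ : K → K, IsPinv p φ → φ 1 = 1 →
    ∀ (V : K → Γ) (x : Fin 2 → K) (ex : K → Fin 2 → ℤ) (ac : K → κ) (φb : κ → κ)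
      (N : Set (Fin 2 → ℤ)) (L : K → AddMonoidAlgebra κ (Fin 2 → ℤ)),
    Chart k p φ g V x ex ac φb N L → ∀ (u : Fin 2 → ℤ) (w : K → ℤ), Good N u →
    OnCh k p φ g L u w → u ≠ 0 →
    ∃ (κ' : Type) (_ : Field κ') (_ : Algebra k κ') (r' : ℕ) (x' : Fin r' → K) (ac' : K → κ')
      (φ' : κ' → κ') (i : κ →+* κ') (y : κ'), IsAC k w x' ac' ∧
      (∀ f, Ge w 0 f → Ge w 0 (φ f) ∧ lc w ac' 0 (φ f) = φ' (lc w ac' 0 f)) ∧
      (letI := i.toAlgebra; Tor p κ φb φ' y) ∧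
      (∀ q : MvPolynomial (Fin n) k, MvPolynomial.aeval g q ≠ 0 → w (MvPolynomial.aeval g q) = 0 →
        ∃ (N : ℕ) (P : κ[X]), ac' (MvPolynomial.aeval g q) * y ^ N = P.eval₂ i y) ∧
      ∀ a : k, i (algebraMap k κ a) = algebraMap k κ' a

/-- [CZ1 pt] (about 150 lines) Uses rat, ng, rf, `I_rk`, `F2S.S_n0`, `F2S.S_fl`. (Template: `F2/S/p_LSz.lean`.)
Proof. Unpack `CL`: a chart, `d`, `e` with `D = d 0 * e 1 - d 1 * e 0 ≠ 0`, `Good N (d + t e)`, `OnCh (d + t e) (y t)`. rat: `t`, `c`, `u`. `Good N u`: `(wt u m : ℝ) = c * wt (d + t e) m`. `Chart.cell` for `ℤ`: `w` with `OnCh`, `w (x i) = u i`. n0: `n0`. `wt e n0 ≠ 0` (real): `0 = wt u n0 = c (wt d n0 + t wt e n0)`, so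
otherwise `wt d n0 = wt e n0 = 0`, i.e. `n0 0 d 0 + n0 1 d 1 = 0`, `n0 0 e 0 + n0 1 e 1 = 0`, and `D ≠ 0` gives `n0 = 0`. Let `e' = n0` if `wt e n0 > 0`, `e' = - n0` otherwise; `wt n0 n0 = (n0 0)² + (n0 1)² > 0`, so `0 < wt e' n0 * wt e n0`. `S_fl` for `u`, `w`, `e'`: `W`. ng with `s = s2`. So `inz`, `inzW` (`OnCh.inz`), `neg`, `negW` (`C.mem_B`), `fst`.
`nt`: `w (x i) = u i`, `u ≠ 0`. `two`: `x 0`, `x 1` (`Chart.vb.ne`): if `a • W (x 0) + b • W (x 1) = 0` then `m = ![a, b]` has `wt u m = 0` and `wt e' m = 0`, so `m = j • n0`, `j * wt e' n0 = 0`, `j = 0`. `disc`: `δ = toLex (0, |wt e' n0|)`: if `f ≠ 0`, `w f = 0` then `W f = toLex (wt u m, wt e' m)` with `wt u m = 0`, `m = j • n0`, so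
`W f = j • toLex (0, wt e' n0)`. `Rs`: rf (`dd = 2`, `C.pb`, `C.fracgen`, `PerfectRing k p` by inference from `IsAlgClosed`); `pol` by `C.mem_B`. `sj`: let `z : κ`; `z = 0` clear; `z ≠ 0`: `Chart.isac.surj`: `f ≠ 0`, `V f = 0`, `ac f = z`; `I_rk` for `V` (`Chart.onch.inz`; `x 0`, `x 1` have independent values: `Chart.vb.indep` for `![a, b]`): `a ≠ 0` with
`Gt V 0 (f - algebraMap k K a)`; `lc V ac 0 (f - a) = 0`, and `= ac f - ac (algebraMap a)` (`IsAC.add` for `f` and `- a`), so `z = algebraMap k κ a` (`IsAC.alg`). -/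
def S_pt : Prop :=
  ∀ (p m : ℕ) [Fact p.Prime] (k K G : Type) [Field k] [CharP k p] [IsAlgClosed k] [Field K]
    [Algebra k K] [Group G] (C : Core p m k K G) (s1 s2 : ℝ) (y : ℝ → K → ℝ)
    (M : K → Finset (ℝ × ℝ)), CL k p C.φ C.t s1 s2 y M →
    (∀ t, s1 < t → t < s2 → SG (Br k C.t) (y t)) →
    ∃ (w : K → ℤ) (W : K → ℤ ×ₗ ℤ), Pt C w W ∧
      ∃ (κ κ' : Type) (_ : Field κ) (_ : Algebra k κ) (_ : Field κ') (_ : Algebra k κ') (r' : ℕ)
        (x' : Fin r' → K) (ac' : K → κ') (φb : κ → κ) (φ' : κ' → κ') (i : κ →+* κ') (y : κ'),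
        Rs C w x' ac' φb φ' i y

/-! ## 2. Elementary facts -/

/-- [CZ1 bk] (about 80 lines) Uses `I_rk`. Elements of `B` which are integral for `W` are constants; elements with constant trace are exact; (U).
Proof. (1) `f = 0` clear. Otherwise `0 ≤ W f ≤ 0`, `W f = 0`; `I_rk` for `W` (`Pt.two`): `a ≠ 0`, `Gt W 0 (f - a)`, and `f - a ∈ B`, so `f - a = 0` (`negW`). (2) `T l = a`: `res (T l) = rr (χ l) (ν l)` and `res a = single 0 a` (`AlgHom.commutes`). If `n = ν l ≠ 0` the coefficient of `rr z n` at `n` is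
`z⁻¹ ≠ 0` (`n ≠ -n`), that of `single 0 a` is `0`. So `ν l = 1`, and `rr z 0 = single 0 (z⁻¹ + z)`: `a = z + z⁻¹`. (3) (U): `u u' = 1`: `u, u' ≠ 0`, `W u + W u' = 0`, both `≤ 0`, so `W u = W u' = 0`, both constant by (1), `T g` constant, (2). -/
def S_bk : Prop :=
  ∀ (p m : ℕ) [Fact p.Prime] (k K G : Type) [Field k] [CharP k p] [IsAlgClosed k] [Field K]
    [Algebra k K] [Group G] (C : Core p m k K G) (w : K → ℤ) (W : K → ℤ ×ₗ ℤ), Pt C w W →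
    (∀ f ∈ C.B, Ge W 0 f → ∃ a : k, f = algebraMap k K a) ∧
    (∀ (l : G) (a : k), C.T l = algebraMap k K a → C.Ex l) ∧ C.U

/-- [CZ1 tc] (about 80 lines) (1) `T (c h) = - T h`; (2) some trace has negative value; (3) if `ν l ≠ 1` then `T l ≠ 0`.
Proof. (1) `PC.rel c h`: `T (c h) + T (c h⁻¹) = - 2 T h`; `c h⁻¹ = (h c⁻¹)⁻¹ = (c h)⁻¹` (`c` is central, `c c = 1`), and `T x⁻¹ = T x` (`rel 1 x`: `T x + T x⁻¹ = 2 T x`). So `2 T (c h) = - 2 T h`, and `2 ≠ 0` in `K` (`C.odd`, characteristic `p`). (2) Suppose `0 ≤ w (T g)` for all `g`. Then `Ge w 0 f` for all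
`f ∈ B` (`C.adj`, `Algebra.adjoin_induction`), so `w f = 0` for all `f ∈ B - 0` (`neg`), and for all `f ∈ K` (`C.fracgen`, `C.mem_B`: `f b = a`), against `nt`. (3) `res (T l) = rr (χ l) n`, `n ≠ 0`: the coefficient at `n` is `z⁻¹ ≠ 0`. -/
def S_tc : Prop :=
  ∀ (p m : ℕ) [Fact p.Prime] (k K G : Type) [Field k] [CharP k p] [IsAlgClosed k] [Field K]
    [Algebra k K] [Group G] (C : Core p m k K G), (∀ h, C.T (C.c * h) = - C.T h) ∧
    (∀ (w : K → ℤ) (W : K → ℤ ×ₗ ℤ), Pt C w W → ∃ g0, w (C.T g0) < 0) ∧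
    ∀ l, C.ν l ≠ 1 → C.T l ≠ 0

/-! ## 3. Case I: all elliptic elements have `ν = 1` -/

/-- [CZ1 cst] (about 170 lines) Uses `F2W.S_R1`, `F2S.S_nl`, `F2S.S_rh`. Residual eigenvalues of elements with `ν l = 1` are constant.
Proof. rh: `O = {f | Ge w 0 f}`, `ρ : O →+* κ'`, `ρ f = lc w ac' 0 f`. `Ψ = ρ ψ = ac' ψ ≠ 0`, `ρ ψ⁻¹ = Ψ⁻¹`, and `ρ (T l) = Ψ + Ψ⁻¹` (`Gt w 0` gives `ρ = 0`). There are `N`, `P` with `(Ψ + Ψ⁻¹) y ^ N = P.eval₂ i y`: if `T l = 0` then `P = 0`; otherwise `w (T l) = 0` (`neg`: hypothesis) and `Rs.pol`. With `letI := i.toAlgebra`, `R1`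
(`Tor.tr`, `Tor.gen`): `Ψ = i c * y ^ j`, `c ≠ 0`.
CLAIM `j = 0`. Suppose `j ≠ 0`. `ρ (T l) = i c y^j + i c⁻¹ y^(-j)` and `ρ (T l * T l) = i (c²) y^(2j) + i (c⁻²) y^(-2j) + 2`. By nl (for `j`, `-j`, `2j`, `-2j`) and additivity of `φ'` (`Tor.pinv`), `φ' 1 = 1`: for all large `N`: `φ'^[N] (ρ (T l)) = 0` and `φ'^[N] (ρ (T l * T l)) = 2`.
By `Rs.res` and induction `Ge w 0 (φ^[N] f)` and `lc w ac' 0 (φ^[N] f) = φ'^[N] (ρ f)` for `f ∈ O`. By `C.tau` (for `TB l` and `TB l * TB l`) and `IsAC.alg`, for large `N`: `φ^[N] f = algebraMap k K (rt^[N] (cs (res f)))`, so `lc w ac' 0` of it is `algebraMap k κ' (rt^[N] (cs (res f)))` (also if it is `0`).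
So `rt^[N] (cs (res (TB l))) = 0` and `rt^[N] (cs (res (TB l * TB l))) = 2` (in `κ'`, hence in `k`). `ν l = 1`: `res (TB l) = rr z 0 = single 0 (z⁻¹ + z)` (`C.res_T`), so with `b = z⁻¹ + z`: `cs (res (TB l)) = b`, `cs (res (TB l * TB l)) = b * b`; `rt` is injective and additive (`F2.rt p k`, the inverse of Frobenius), so `b = 0`, `b * b = 0`, and
`0 = rt^[N] 0 = 2`: but `p ≠ 2` (`C.odd`): a contradiction.
So `Ψ = i c`, `c = algebraMap k κ a` (`Rs.sj`), `a ≠ 0`, `Ψ = algebraMap k κ' a` (`Rs.ia`) `= ρ (algebraMap k K a)`: `ρ (ψ - a) = 0`, i.e. `Gt w 0 (ψ - a)` (`lc = 0` and `Ge w 0` imply `Gt w 0`: `IsAC.ne`). And `ρ (T l - a - a⁻¹) = 0`, so `Gt w 0 (T l - a - a⁻¹)`, and this element is in `B`, so it is `0`. -/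
def S_cst : Prop :=
  ∀ (p m : ℕ) [Fact p.Prime] (k K G : Type) [Field k] [CharP k p] [IsAlgClosed k] [Field K]
    [Algebra k K] [Group G] (C : Core p m k K G) (w : K → ℤ), InZ k p C.φ w →
    (∀ f ∈ C.B, f ≠ 0 → w f ≤ 0) →
    ∀ (κ κ' : Type) [Field κ] [Algebra k κ] [Field κ'] [Algebra k κ'] (r' : ℕ)
      (x' : Fin r' → K) (ac' : K → κ') (φb : κ → κ) (φ' : κ' → κ') (i : κ →+* κ') (y : κ'),
      Rs C w x' ac' φb φ' i y → Cst C w

/-- [CZ1 cI] (about 90 lines) Uses bk, tc and CZ: dl, tt, cl, two, tb, ex; `EdgeElt.root` in `F2/D/Main.lean`. CASE I.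
Proof. dl: `δ`, `Cls`, `δ g = 1 ↔ (χ g) ^ 2 = 1`. `Disc w` with `γ = 1`. tt (`C.pc`, `C.irr`, tc): `t` with `Ell l ↔ 0 ≤ w (T l)`. If `δ l = 1` for all elements of edge stabilisers then cl gives `Onto`. Otherwise there are an edge stabiliser `S`, `l0 ∈ S` with `(χ l0) ^ 2 ≠ 1`, and `EdgeElt w T l0 g ψ`; `l0` fixes a vertex, so `0 ≤ w (T l0)`, `ν l0 = 1`;
`EdgeElt.root`: `Gt w 0 (ψ + ψ⁻¹ - T l0)`; `Cst`: `T l0 = a + a⁻¹` is constant, so `Ex l0` (bk). two for `l0`: `T l = 2` implies `T (l h) = T h`.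
tb with `v = w`, `V = W`, `A = rootsOfUnity (2 * m) k` (cyclic: `rootsOfUnity.isCyclic`; `χ` with restricted codomain by `C.χ_pow`; `2 * m ≠ 0`): `0 < w f → 0 < W f` (first component, `Pt.fst`); `Pt.disc`; eigenvalues: `0 ≤ w (T l)` so `ν l = 1`, `Cst`: `Gt w 0 (ψ - a)`, `a ≠ 0`, so `Gt W 0 (ψ - a)`, `W ψ = W a = 0` (`ψ = a + (ψ - a)`; `IsV`: the value of a sum with
different values is the smaller one). Last hypothesis: `0 ≤ W (T l)`, `χ l = 1`: `Ge W 0 (T l)`, so `T l` is constant (bk (1), `C.T_mem`), `Ex l`: `T l = 1 + 1 = 2`, two. The result: a tree whose elliptic elements have `0 ≤ W (T l)`, so they are exact. ex (`C.U` by bk) gives `Onto`. -/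
def S_cI : Prop :=
  ∀ (p m : ℕ) [Fact p.Prime] (k K G : Type) [Field k] [CharP k p] [IsAlgClosed k] [Field K]
    [Algebra k K] [Group G] (C : Core p m k K G) (w : K → ℤ) (W : K → ℤ ×ₗ ℤ), Pt C w W →
    Cst C w → (∀ l, 0 ≤ w (C.T l) → C.ν l = 1) → Onto m G C.c

/-! ## 4. Case II: some elliptic element has `ν ≠ 1` -/

/-- [CZ1 tr1] (about 40 lines) Uses `F2Ch.S_X2`, `F2W.S_Z3`. Copy of `F2/S/p_tr.lean`.
Proof. X2 for `w` (`d = 2`, `C.pb`): `r + s = 2`, `r ≥ 1` because `w` is not trivial (`r = 0`: `IsVB.gen` gives `w = 0`). So `trdeg = s ≤ 1`; Z3. -/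
def S_tr1 : Prop :=
  ∀ (p m : ℕ) [Fact p.Prime] (k K G : Type) [Field k] [CharP k p] [IsAlgClosed k] [Field K]
    [Algebra k K] [Group G] (C : Core p m k K G) (w : K → ℤ), InZ k p C.φ w → (∃ f, w f ≠ 0) →
    ∀ f h : K, Ge w 0 f → Ge w 0 h → ∃ P : MvPolynomial (Fin 2) k, P ≠ 0 ∧
      Gt w 0 (MvPolynomial.aeval ![f, h] P)

/-- [CZ1 Iw] (about 120 lines) Uses tr1. No element of the ideal is integral for `w`.
Proof. Let `h = T l1`, `n = ν l1 ≠ 0`. Suppose `f ≠ 0`. tr1: `P ≠ 0` in `k[X_0, X_1]` with `Gt w 0 (P(f, h))`; `P(f, h) ∈ B`, so `P(f, h) = 0` (`neg`). Make `K` (or `B`) an algebra over `R = k[X]` with `X` acting as `h` (`(aeval h).toAlgebra`): `f` is algebraic over `R`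
(`MvPolynomial.finSuccEquiv`, or choose `P` of minimal total degree among the nonzero `P` with `P(f, h) = 0`: if `P(0, X_1) = 0` then `X_0 ∣ P`, `P = X_0 Q` and `Q(f, h) = 0`: contradiction to the minimality).  So there is a polynomial `Q` over `R` with `Q.coeff 0 ≠ 0` and `Q(f) = 0` (`IsAlgebraic.exists_nonzero_coeff_and_aeval_eq_zero`).
Apply the ring homomorphism `res` to `Q(f) = 0` (as an equation in `B`): `res f = 0`, so `(Q.coeff 0) (res h) = 0` in `Ls k`. But `res h = z⁻¹ s ^ n + z s ^ (-n)` is transcendental over `k`: for `P1 = Q.coeff 0 ≠ 0` of degree `e` the coefficient of `P1 (res h)` at `e |n|` is `lead * (z⁻¹ or z) ^ e ≠ 0`. -/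
def S_Iw : Prop :=
  ∀ (p m : ℕ) [Fact p.Prime] (k K G : Type) [Field k] [CharP k p] [IsAlgClosed k] [Field K]
    [Algebra k K] [Group G] (C : Core p m k K G) (w : K → ℤ), InZ k p C.φ w → (∃ f, w f ≠ 0) →
    (∀ f ∈ C.B, f ≠ 0 → w f ≤ 0) → ∀ l1, 0 ≤ w (C.T l1) → C.ν l1 ≠ 1 →
    ∀ f : C.B, C.res f = 0 → Ge w 0 (f : K) → (f : K) = 0

/-- [CZ1 noS] (about 120 lines) Uses Iw, bk. No monomial.
Proof. Let `n = toAdd (ν l1) ≠ 0`, `z = χ l1`. Replace `f` by `a⁻¹ f`: `a = 1`. `l' = l1 ^ N` has `Ge w 0 (T l')` (`T (l ^ (j + 1)) = T l * T (l ^ j) - T (l ^ (j - 1))`, `T (l⁻¹) = T l`; or `F2S.S_pr`), `res (T l') = rr (z ^ N) (n N)`. Let `f1 = f ^ |n|` (natural power): `res f1 = single (N |n|) 1`. So for suitable `b ∈ k`, `b ≠ 0`, `g = T l' - b f1 ∈ B`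
has `res g = single (- N |n|) b'`, `b' ≠ 0` (`|n| = ± n`), and `Ge w 0 g`. `u = f1`, `u' = b'⁻¹ g`: `res (u u') = 1`, so `u u' - 1 ∈ B` has `res = 0` and `Ge w 0`: `u u' = 1` (Iw). `W u + W u' = 0`, both `≤ 0` (`negW`), so `W u = 0`, `u` is a constant (bk): `res u = single 0 _`, but `N |n| ≠ 0`: contradiction. -/
def S_noS : Prop :=
  ∀ (p m : ℕ) [Fact p.Prime] (k K G : Type) [Field k] [CharP k p] [IsAlgClosed k] [Field K]
    [Algebra k K] [Group G] (C : Core p m k K G) (w : K → ℤ) (W : K → ℤ ×ₗ ℤ), Pt C w W →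
    ∀ l1, 0 ≤ w (C.T l1) → C.ν l1 ≠ 1 → ∀ (f : C.B) (N : ℤ) (a : k), Ge w 0 (f : K) → N ≠ 0 →
    a ≠ 0 → C.res f ≠ AddMonoidAlgebra.single N a

/-- [CZ1 cII] (about 100 lines) Uses noS, tc and CZ: dl, tt, tl. CASE II.
Proof. dl: `δ`. `Disc w` with `γ = 1`; tt (tc): `t` with `Ell l ↔ 0 ≤ w (T l)`. tl: `l1` is elliptic with `ν l1 ≠ 1`. The relation: let `l, l'` be elliptic, `ν l ≠ 1`, `ν l' ≠ 1`, `(ν l) ^ i = (ν l') ^ j`. `L = l ^ i`, `L' = l' ^ j`: `ν L = ν L'`, additively `N`. If `N = 0` then `i = j = 0` and the claim is clear. `N ≠ 0`: `Ge w 0 (T L)`, `Ge w 0 (T L')` (powers of elliptic elements: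
`T (l ^ (j + 1)) = T l * T (l ^ j) - T (l ^ (j - 1))`, or they fix a vertex of `t`), `z1 = χ L`, `z2 = χ L'`. `f = z1 T L - z2 T L' ∈ B`: `res f = single (-N) (z1² - z2²)`, `Ge w 0 f`, so `z1² = z2²` (noS with `f`, `- N`). So `χ (L * L'⁻¹) ^ 2 = 1`, `δ (L * L'⁻¹) = 1`, `(δ l) ^ i = (δ l') ^ j`. -/
def S_cII : Prop :=
  ∀ (p m : ℕ) [Fact p.Prime] (k K G : Type) [Field k] [CharP k p] [IsAlgClosed k] [Field K]
    [Algebra k K] [Group G] (C : Core p m k K G) (w : K → ℤ) (W : K → ℤ ×ₗ ℤ), Pt C w W →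
    ∀ l1, 0 ≤ w (C.T l1) → C.ν l1 ≠ 1 → Onto m G C.c

end Pool.Agent.CZE1
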