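import Pool.Agent.Lib.MP_305fdd_al.CZ.E1.Stm

/-!
# MP_305fdd_al (`C_m * Z`), E1: piece [CZ1 rat], rational directions are dense
-/

set_option autoImplicit false

namespace Pool.Agent.CZE1

open Pool.Agent.F2Ch Pool.Agent.F2 Pool.Agent.F2W Pool.Agent.F2D Pool.Agent.F2RF Pool.Agent.F2PF
open Pool.Agent.CZ Polynomial

theorem p_rat : S_rat := by
  intro d e s1 s2 hD hs
  set D : ℝ := d 0 * e 1 - d 1 * e 0 with hDdef
  let α : ℝ × ℝ → ℝ := fun v => (v.1 * e 1 - v.2 * e 0) / D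
  let β : ℝ × ℝ → ℝ := fun v => (d 0 * v.2 - d 1 * v.1) / D
  have hα : Continuous α := by
    show Continuous fun v : ℝ × ℝ => (v.1 * e 1 - v.2 * e 0) / D
    fun_prop
  have hβ : Continuous β := by
    show Continuous fun v : ℝ × ℝ => (d 0 * v.2 - d 1 * v.1) / D
    fun_prop
  let O : Set (ℝ × ℝ) := {v | 0 < α v} ∩ ({v | s1 * α v < β v} ∩ {v | β v < s2 * α v})
  have hO : IsOpen O :=
    (isOpen_lt continuous_const hα).inter
      ((isOpen_lt (continuous_const.mul hα) hβ).inter (isOpen_lt hβ (continuous_const.mul hα)))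
  have hne : O.Nonempty := by
    refine ⟨(d 0 + (s1 + s2) / 2 * e 0, d 1 + (s1 + s2) / 2 * e 1), ?_⟩
    have h1 : α (d 0 + (s1 + s2) / 2 * e 0, d 1 + (s1 + s2) / 2 * e 1) = 1 := by
      show ((d 0 + (s1 + s2) / 2 * e 0) * e 1 - (d 1 + (s1 + s2) / 2 * e 1) * e 0) / D = 1
      rw [div_eq_one_iff_eq hD, hDdef]; ring
    have h2 : β (d 0 + (s1 + s2) / 2 * e 0, d 1 + (s1 + s2) / 2 * e 1) = (s1 + s2) / 2 := by
      show (d 0 * (d 1 + (s1 + s2) / 2 * e 1) - d 1 * (d 0 + (s1 + s2) / 2 * e 0)) / D =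
        (s1 + s2) / 2
      rw [div_eq_iff hD, hDdef]; ring
    refine ⟨?_, ?_, ?_⟩
    · show 0 < α _
      rw [h1]; exact one_pos
    · show s1 * α _ < β _
      rw [h1, h2]; linarith
    · show β _ < s2 * α _
      rw [h1, h2]; linarith
  obtain ⟨⟨q1, q2⟩, hq⟩ := (Rat.denseRange_cast.prodMap Rat.denseRange_cast).exists_mem_open hO hne
  obtain ⟨ha, hb1, hb2⟩ := hq
  change 0 < α ((q1 : ℝ), (q2 : ℝ)) at ha
  change s1 * α ((q1 : ℝ), (q2 : ℝ)) < β ((q1 : ℝ), (q2 : ℝ)) at hb1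
  change β ((q1 : ℝ), (q2 : ℝ)) < s2 * α ((q1 : ℝ), (q2 : ℝ)) at hb2
  set A := α ((q1 : ℝ), (q2 : ℝ)) with hA
  set Bt := β ((q1 : ℝ), (q2 : ℝ)) with hBt
  have hA' : A * D = (q1 : ℝ) * e 1 - q2 * e 0 := by
    show ((q1 : ℝ) * e 1 - (q2 : ℝ) * e 0) / D * D = _
    rw [div_mul_cancel₀ _ hD]
  have hB' : Bt * D = d 0 * (q2 : ℝ) - d 1 * q1 := by
    show (d 0 * (q2 : ℝ) - d 1 * (q1 : ℝ)) / D * D = _
    rw [div_mul_cancel₀ _ hD]
  have e0 : A * d 0 + Bt * e 0 = q1 := by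
    have : (A * d 0 + Bt * e 0) * D = q1 * D := by
      calc (A * d 0 + Bt * e 0) * D = A * D * d 0 + Bt * D * e 0 := by ring
        _ = q1 * D := by rw [hA', hB', hDdef]; ring
    exact mul_right_cancel₀ hD this
  have e1 : A * d 1 + Bt * e 1 = q2 := by
    have : (A * d 1 + Bt * e 1) * D = q2 * D := by
      calc (A * d 1 + Bt * e 1) * D = A * D * d 1 + Bt * D * e 1 := by ring
        _ = q2 * D := by rw [hA', hB', hDdef]; ring
    exact mul_right_cancel₀ hD this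
  have hn1 : (0 : ℝ) < q1.den := by exact_mod_cast q1.den_pos
  have hn2 : (0 : ℝ) < q2.den := by exact_mod_cast q2.den_pos
  have hq1 : (q1 : ℝ) * q1.den = q1.num := by exact_mod_cast Rat.mul_den_eq_num q1
  have hq2 : (q2 : ℝ) * q2.den = q2.num := by exact_mod_cast Rat.mul_den_eq_num q2
  have hAne : A ≠ 0 := ha.ne'
  have key : ∀ i : Fin 2, (((![q1.num * q2.den, q2.num * q1.den] : Fin 2 → ℤ) i : ℤ) : ℝ) =
      ((q1.den : ℝ) * q2.den * A) * (d i + Bt / A * e i) := by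
    have h0 : ((q1.den : ℝ) * q2.den * A) * (d 0 + Bt / A * e 0) =
        (q1.den : ℝ) * q2.den * (A * d 0 + Bt * e 0) := by field_simp
    have h1 : ((q1.den : ℝ) * q2.den * A) * (d 1 + Bt / A * e 1) =
        (q1.den : ℝ) * q2.den * (A * d 1 + Bt * e 1) := by field_simp
    intro i
    fin_cases i
    · show (((q1.num * q2.den : ℤ)) : ℝ) = ((q1.den : ℝ) * q2.den * A) * (d 0 + Bt / A * e 0)
      rw [h0, e0]
      push_cast
      rw [← hq1]; ring
    · show (((q2.num * q1.den : ℤ)) : ℝ) = ((q1.den : ℝ) * q2.den * A) * (d 1 + Bt / A * e 1)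
      rw [h1, e1]
      push_cast
      rw [← hq2]; ring
  refine ⟨Bt / A, (q1.den : ℝ) * q2.den * A, ![q1.num * q2.den, q2.num * q1.den], ?_, ?_, ?_, ?_,
    key⟩
  · rw [lt_div_iff₀ ha]; exact hb1
  · rw [div_lt_iff₀ ha]; exact hb2
  · positivity
  · intro h
    have h0 := congrFun h 0
    have h1 := congrFun h 1
    have k0 := key 0
    have k1 := key 1
    rw [h0] at k0
    rw [h1] at k1
    simp only [Pi.zero_apply, Int.cast_zero] at k0 k1
    have hc : (q1.den : ℝ) * q2.den * A ≠ 0 := by positivity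
    have g0 : d 0 + Bt / A * e 0 = 0 := (mul_eq_zero.1 k0.symm).resolve_left hc
    have g1 : d 1 + Bt / A * e 1 = 0 := (mul_eq_zero.1 k1.symm).resolve_left hc
    apply hD
    rw [hDdef]
    linear_combination e 1 * g0 - e 0 * g1

end Pool.Agent.CZE1
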